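import Pool.Agent.Run7.h735.IK.Zeta

/-!
# Polynomials with congruent power sums; closed points of plane curves
-/

set_option autoImplicit false

namespace Pool.Agent.Run7.h735.IK

open Finset Polynomial Pool.Agent.Y134.Cyc Pool.Agent.W528.HS Pool.Agent.W111.HS.EC

lemma pm_one {R : Type} [CommRing R] (a : ℕ → ℕ) (n : ℕ) :
    pm 1 (1 : R) (fun d _ => a d) n = ∏ d ∈ Icc 1 n, (1 - PowerSeries.X ^ d) ^ a d := by
  unfold pm
  refine prod_congr rfl fun d _ => ?_
  simp

lemma orbSum_one {R : Type} [CommRing R] (a : ℕ → ℕ) (m : ℕ) :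
    orbSum 1 (1 : R) (fun d _ => a d) m = ((dsum (fun d => (a d : ℤ)) m : ℤ) : R) := by
  unfold orbSum dsum
  push_cast
  refine sum_congr rfl fun d _ => ?_
  simp

/-- **Polynomials with congruent power sums.** -/
theorem zeta_congr {p : ℕ} (hp : p.Prime) {E : Type} [Field E] [CharZero E] (A B : ℤ[X])
    (α β : Multiset E)
    (hA : A.map (Int.castRingHom E) = (α.map fun x => 1 - C x * X).prod)
    (hB : B.map (Int.castRingHom E) = (β.map fun x => 1 - C x * X).prod) (e : ℕ → ℤ)
    (he : ∀ m, 1 ≤ m → (α.map fun x => x ^ m).sum - (β.map fun x => x ^ m).sum =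
      ((dsum e m : ℤ) : E))
    (hdvd : ∀ m, 1 ≤ m → (p : ℤ) ^ (m.factorization p + 1) ∣ dsum e m) :
    A.map (Int.castRingHom (ZMod p)) = B.map (Int.castRingHom (ZMod p)) := by
  classical
  have hfact : Fact p.Prime := ⟨hp⟩
  let a : ℕ → ℕ := fun d => (e d).toNat
  let b : ℕ → ℕ := fun d => (-e d).toNat
  have hab : ∀ d, e d = (a d : ℤ) - b d := by
    intro d
    change e d = ((e d).toNat : ℤ) - ((-e d).toNat : ℤ)
    omega
  have hab' : e = fun d => (a d : ℤ) - b d := funext hab
  -- the power series over `ℤ`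
  have hgsA : PowerSeries.map (Int.castRingHom E) (A : PowerSeries ℤ) = gs α := by
    rw [gs_coe, ← hA, Polynomial.polynomial_map_coe]
  have hgsB : PowerSeries.map (Int.castRingHom E) (B : PowerSeries ℤ) = gs β := by
    rw [gs_coe, ← hB, Polynomial.polynomial_map_coe]
  have hR : ∀ (n : ℕ) (x : E), n ≠ 0 → (n : E) * x = 0 → x = 0 := by
    intro n x hn h
    rcases mul_eq_zero.1 h with h2 | h2
    · exact (hn (Nat.cast_eq_zero.1 h2)).elim
    · exact h2
  have key : ∀ n : ℕ, (PowerSeries.X : PowerSeries ℤ) ^ (n + 1) ∣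
      (A : PowerSeries ℤ) * ∏ d ∈ Icc 1 n, (1 - PowerSeries.X ^ d) ^ b d -
        (B : PowerSeries ℤ) * ∏ d ∈ Icc 1 n, (1 - PowerSeries.X ^ d) ^ a d := by
    intro n
    rw [PowerSeries.X_pow_dvd_iff]
    intro i hi
    have h1 := isLog_unique hR (isLog_mul (isLog_gs α) (isLog_pm 1 (1 : E) (fun d _ => b d) n))
      (isLog_mul (isLog_gs β) (isLog_pm 1 (1 : E) (fun d _ => a d) n))
      (by
        have e1 := coeff_zero_gs α
        have e2 := coeff_zero_pm 1 (1 : E) (fun d _ => b d) n
        rw [PowerSeries.coeff_zero_eq_constantCoeff_apply] at e1 e2 ⊢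
        rw [map_mul, e1, e2, one_mul])
      (by
        have e1 := coeff_zero_gs β
        have e2 := coeff_zero_pm 1 (1 : E) (fun d _ => a d) n
        rw [PowerSeries.coeff_zero_eq_constantCoeff_apply] at e1 e2 ⊢
        rw [map_mul, e1, e2, one_mul]) n
      (by
        intro m hm1 hm2
        rw [map_add, map_add, coeff_gs α m hm1, coeff_gs β m hm1,
          coeff_pm 1 (1 : E) _ n m hm1 hm2, coeff_pm 1 (1 : E) _ n m hm1 hm2,
          orbSum_one b m, orbSum_one a m]
        have h2 := he m hm1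
        rw [hab'] at h2
        have h3 : dsum (fun d => (a d : ℤ) - b d) m =
            dsum (fun d => (a d : ℤ)) m - dsum (fun d => (b d : ℤ)) m := by
          unfold dsum
          rw [← sum_sub_distrib]
          exact sum_congr rfl fun d _ => by ring
        rw [h3] at h2
        push_cast at h2 ⊢
        linear_combination h2) i (by omega)
    have hinj : Function.Injective (Int.castRingHom E) := RingHom.injective_int _
    apply hinj
    rw [map_zero, ← PowerSeries.coeff_map, map_sub, map_mul, map_mul, hgsA, hgsB, map_sub,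
      sub_eq_zero]
    have h4 : ∀ c : ℕ → ℕ, PowerSeries.map (Int.castRingHom E)
        (∏ d ∈ Icc 1 n, (1 - PowerSeries.X ^ d) ^ c d) = pm 1 (1 : E) (fun d _ => c d) n := by
      intro c
      rw [pm_one, map_prod]
      refine prod_congr rfl fun d _ => ?_
      simp
    rw [h4, h4]
    exact h1
  apply Polynomial.coe_injective (R := ZMod p)
  ext n
  have h1 := map_dvd (PowerSeries.map (Int.castRingHom (ZMod p))) (key n)
  have hX : ∀ d : ℕ, PowerSeries.map (Int.castRingHom (ZMod p)) (PowerSeries.X ^ d) =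
      PowerSeries.X ^ d := fun d => by rw [map_pow, PowerSeries.map_X]
  have hprod : ∀ c : ℕ → ℕ, PowerSeries.map (Int.castRingHom (ZMod p))
      (∏ d ∈ Icc 1 n, (1 - PowerSeries.X ^ d) ^ c d) =
      ∏ d ∈ Icc 1 n, (1 - PowerSeries.X ^ d) ^ c d := by
    intro c
    rw [map_prod]
    refine prod_congr rfl fun d _ => ?_
    rw [map_pow, map_sub, map_one, hX]
  rw [hX, map_sub, map_mul, map_mul, hprod, hprod, ← Polynomial.polynomial_map_coe,
    ← Polynomial.polynomial_map_coe] at h1
  rw [hab'] at hdvd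
  have h2 := prod_congr_mod hp a b hdvd n
  set Pa : PowerSeries (ZMod p) := ∏ d ∈ Icc 1 n, (1 - PowerSeries.X ^ d) ^ a d with hPa
  set Pb : PowerSeries (ZMod p) := ∏ d ∈ Icc 1 n, (1 - PowerSeries.X ^ d) ^ b d with hPb
  set A' : PowerSeries (ZMod p) := ((A.map (Int.castRingHom (ZMod p)) : (ZMod p)[X]) :
    PowerSeries (ZMod p)) with hA'
  set B' : PowerSeries (ZMod p) := ((B.map (Int.castRingHom (ZMod p)) : (ZMod p)[X]) :
    PowerSeries (ZMod p)) with hB'
  have h3 : PowerSeries.X ^ (n + 1) ∣ (A' - B') * Pb := by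
    have e1 : (A' - B') * Pb = (A' * Pb - B' * Pa) + B' * (Pa - Pb) := by ring
    rw [e1]
    exact dvd_add h1 (h2.mul_left _)
  have hunit : IsUnit Pb := by
    rw [PowerSeries.isUnit_iff_constantCoeff, hPb, map_prod]
    have e2 : ∀ d ∈ Icc 1 n, PowerSeries.constantCoeff ((1 - PowerSeries.X ^ d :
        PowerSeries (ZMod p)) ^ b d) = 1 := by
      intro d hd
      rw [mem_Icc] at hd
      rw [map_pow, map_sub, map_one, map_pow, PowerSeries.constantCoeff_X,
        zero_pow (by omega), sub_zero, one_pow]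
    rw [prod_congr rfl e2, prod_const_one]
    exact isUnit_one
  have h4 : PowerSeries.X ^ (n + 1) ∣ A' - B' := (hunit.dvd_mul_right).1 h3
  have h5 := (PowerSeries.X_pow_dvd_iff.1 h4) n (Nat.lt_succ_self n)
  rw [map_sub, sub_eq_zero] at h5
  exact h5

/-- The closed points of a plane curve. -/
theorem closed_points {κ : Type} [Field κ] [Fintype κ] (F : MvPolynomial (Fin 2) κ) :
    ∃ e : ℕ → ℤ, ∀ (L : Type) [Field L] [Fintype L] [Algebra κ L],
      (curvePoints F L : ℤ) = dsum e (Module.finrank κ L) := by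
  obtain ⟨a, ha⟩ := Pool.Agent.W715.HS.OC.main κ 1 1 one_pos IsPrimitiveRoot.one 3
    (lastMul (F ^ 1))
  obtain ⟨b, hb⟩ := Pool.Agent.W715.HS.OC.main κ 1 1 one_pos IsPrimitiveRoot.one 3
    (lastMul ((1 : MvPolynomial (Fin 2) κ) ^ 1))
  refine ⟨fun d => (b d 0 : ℤ) - a d 0, ?_⟩
  intro L _ _ _
  have h1 := (ha L).2
  have h2 := (hb L).2
  have h3 := open_eq (j := 1) le_rfl F L
  have h4 := open_eq (j := 1) le_rfl (1 : MvPolynomial (Fin 2) κ) L
  have h5 : curvePoints (1 : MvPolynomial (Fin 2) κ) L = 0 := by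
    unfold curvePoints
    simp
  rw [h5, add_zero] at h4
  have h6 : ∀ c : ℕ → ℕ → ℕ, (orbSum 1 1 c (Module.finrank κ L) : ℤ) =
      dsum (fun d => (c d 0 : ℤ)) (Module.finrank κ L) := by
    intro c
    unfold orbSum dsum
    refine sum_congr rfl fun d _ => ?_
    simp
  rw [h6] at h1 h2
  have h7 : dsum (fun d => (b d 0 : ℤ) - a d 0) (Module.finrank κ L) =
      dsum (fun d => (b d 0 : ℤ)) (Module.finrank κ L) -
        dsum (fun d => (a d 0 : ℤ)) (Module.finrank κ L) := by
    unfold dsum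
    rw [← sum_sub_distrib]
    exact sum_congr rfl fun d _ => by ring
  rw [h7, ← h1, ← h2]
  have h8 : ((projOpen L ((lastMul (F ^ 1)).map (algebraMap κ L)) + curvePoints F L : ℕ) : ℤ) =
      ((projOpen L ((lastMul ((1 : MvPolynomial (Fin 2) κ) ^ 1)).map (algebraMap κ L)) : ℕ) : ℤ) := by
    rw [h3, h4]
  push_cast at h8
  linarith

end Pool.Agent.Run7.h735.IK
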