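import Mathlib

/-!
# Orbits of the Galois group of a finite field
-/

set_option autoImplicit false

namespace Pool.Agent.Run7.h735.IK

open Finset

/-- In a finite field the `N / p`-th power decides about `p`-th powers. -/
lemma exists_root_of_pow {L : Type} [Field L] [Fintype L] {p : ℕ} (hp : p.Prime)
    (hdvd : p ∣ Fintype.card L - 1) {w : L} (hw : w ≠ 0)
    (h : w ^ ((Fintype.card L - 1) / p) = 1) : ∃ y : L, y ^ p = w := by
  classical
  obtain ⟨g, hg⟩ := IsCyclic.exists_generator (α := Lˣ)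
  obtain ⟨k, hk⟩ := (mem_powers_iff_mem_zpowers (x := g) (y := Units.mk0 w hw)).2 (hg _)
  have hk' : g ^ k = Units.mk0 w hw := hk
  have hgo : orderOf g = Fintype.card L - 1 := by
    rw [orderOf_eq_card_of_forall_mem_zpowers hg, Nat.card_eq_fintype_card, Fintype.card_units]
  have hQ := Fintype.one_lt_card (α := L)
  obtain ⟨N, hN⟩ := hdvd
  have hN0 : 0 < N := Nat.pos_of_ne_zero (by rintro rfl; omega)
  have hdiv : (Fintype.card L - 1) / p = N := by
    rw [hN, Nat.mul_div_cancel_left _ hp.pos]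
  rw [hdiv] at h
  have h1 : g ^ (k * N) = 1 := by
    rw [pow_mul, hk']
    apply Units.ext
    rw [Units.val_pow_eq_pow_val, Units.val_mk0, h, Units.val_one]
  have h2 : orderOf g ∣ k * N := orderOf_dvd_of_pow_eq_one h1
  rw [hgo, hN] at h2
  have h3 : p ∣ k := Nat.dvd_of_mul_dvd_mul_right hN0 h2
  obtain ⟨j, hj⟩ := h3
  refine ⟨((g ^ j : Lˣ) : L), ?_⟩
  rw [← Units.val_pow_eq_pow_val, ← pow_mul, mul_comm, ← hj, hk']
  rfl

/-- An element fixed by an automorphism of order `p` is a `p`-th power. -/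
theorem exists_root_of_fixed {κ L : Type} [Field κ] [Fintype κ] [Field L] [Fintype L]
    [Algebra κ L] {p : ℕ} (hp : p.Prime) (hdvd : p ∣ Fintype.card κ - 1) {h : L ≃ₐ[κ] L}
    (hh : orderOf h = p) {w : L} (hw : h w = w) : ∃ y : L, y ^ p = w := by
  classical
  rcases eq_or_ne w 0 with rfl | hw0
  · exact ⟨0, zero_pow hp.ne_zero⟩
  let L₁ : IntermediateField κ L := IntermediateField.fixedField (Subgroup.zpowers h)
  have hfin : Module.finrank L₁ L = p := by
    rw [IntermediateField.finrank_fixedField_eq_card, Nat.card_zpowers, hh]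
  have hmem : w ∈ L₁ := by
    rw [IntermediateField.mem_fixedField_iff]
    rintro f ⟨i, rfl⟩
    change (h ^ i) w = w
    refine zpow_induction_left (P := fun t : L ≃ₐ[κ] L => t w = w) rfl ?_ ?_ i
    · intro a ha
      rw [AlgEquiv.mul_apply, ha, hw]
    · intro a ha
      rw [AlgEquiv.mul_apply, ha]
      have h1 : (h⁻¹ : L ≃ₐ[κ] L) (h w) = w := by
        rw [← AlgEquiv.mul_apply, inv_mul_cancel, AlgEquiv.one_apply]
      rwa [hw] at h1
  letI : Fintype L₁ := Fintype.ofFinite _
  have hL₁ : 1 < Fintype.card L₁ := Fintype.one_lt_card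
  have hcard : Fintype.card L = Fintype.card L₁ ^ p := by
    rw [Module.card_eq_pow_finrank (K := L₁) (V := L), hfin]
  have hcard₁ : Fintype.card L₁ = Fintype.card κ ^ Module.finrank κ L₁ :=
    Module.card_eq_pow_finrank
  set Q := Fintype.card L₁ with hQ
  have hpQ : p ∣ Q - 1 := by
    refine hdvd.trans ?_
    rw [hcard₁]
    simpa using Nat.sub_dvd_pow_sub_pow (Fintype.card κ) 1 (Module.finrank κ L₁)
  -- `Q ^ p - 1 = (Q - 1) * S`, `p ∣ S`
  have hS : (Q - 1) * (∑ i ∈ range p, Q ^ i) = Q ^ p - 1 := by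
    have h1 := Nat.geomSum_eq (m := Q) (by omega) p
    rw [h1]
    exact Nat.mul_div_cancel' (by simpa using Nat.sub_dvd_pow_sub_pow Q 1 p)
  have hpS : p ∣ ∑ i ∈ range p, Q ^ i := by
    have h1 : ∀ i ∈ range p, Q ^ i ≡ 1 [MOD p] := by
      intro i _
      have h2 : Q ≡ 1 [MOD p] := ((Nat.modEq_iff_dvd' (by omega)).2 hpQ).symm
      simpa using h2.pow i
    have h2 : ∑ i ∈ range p, Q ^ i ≡ ∑ i ∈ range p, 1 [MOD p] := by
      exact Nat.ModEq.sum h1
    rw [sum_const, card_range, smul_eq_mul, mul_one] at h2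
    have h3 : ∑ i ∈ range p, Q ^ i ≡ 0 [MOD p] := h2.trans (Nat.modEq_zero_iff_dvd.2 dvd_rfl)
    exact Nat.modEq_zero_iff_dvd.1 h3
  obtain ⟨S', hS'⟩ := hpS
  have hdiv : (Fintype.card L - 1) / p = (Q - 1) * S' := by
    rw [hcard, ← hS, hS', show (Q - 1) * (p * S') = p * ((Q - 1) * S') by ring,
      Nat.mul_div_cancel_left _ hp.pos]
  apply exists_root_of_pow hp ?_ hw0
  · rw [hdiv, pow_mul]
    have h4 : w ^ (Q - 1) = 1 := by
      have h5 := FiniteField.pow_card_sub_one_eq_one (⟨w, hmem⟩ : L₁) (fun h0 => hw0 (by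
        exact congrArg Subtype.val h0))
      exact congrArg Subtype.val h5
    rw [h4, one_pow]
  · rw [hcard, ← hS, hS']
    exact ⟨(Q - 1) * S', by ring⟩

/-- If a group acts freely on a set then its order divides the number of the elements of the set. -/
lemma card_dvd_of_free {P X : Type} [Group P] [Finite P] [Finite X] [MulAction P X]
    (h : ∀ (g : P) (x : X), g • x = x → g = 1) : Nat.card P ∣ Nat.card X := by
  classical
  letI : Fintype P := Fintype.ofFinite _
  letI : Fintype X := Fintype.ofFinite _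
  letI : Fintype (MulAction.orbitRel.Quotient P X) := Fintype.ofFinite _
  letI : ∀ b : X, Fintype (MulAction.stabilizer P b) := fun b => Fintype.ofFinite _
  rw [Nat.card_eq_fintype_card, Nat.card_eq_fintype_card,
    MulAction.card_eq_sum_card_group_div_card_stabilizer P X]
  apply Finset.dvd_sum
  intro ω _
  have h1 : Fintype.card (MulAction.stabilizer P (ω.out)) = 1 := by
    rw [Fintype.card_eq_one_iff]
    refine ⟨1, fun g => ?_⟩
    apply Subtype.ext
    exact h g.1 ω.out g.2
  rw [h1, Nat.div_one]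

/-- A stable set of vectors, none of which is fixed by an automorphism of order `p`. -/
theorem pow_dvd_ncard {κ L : Type} [Field κ] [Fintype κ] [Field L] [Fintype L]
    [Algebra κ L] {p : ℕ} (hp : p.Prime) {n : ℕ} (X : Set (Fin n → L))
    (hX : ∀ (g : L ≃ₐ[κ] L) (x : Fin n → L), x ∈ X → (fun i => g (x i)) ∈ X)
    (hfree : ∀ (g : L ≃ₐ[κ] L) (x : Fin n → L), x ∈ X → orderOf g = p →
      (fun i => g (x i)) = x → False) :
    p ^ (Module.finrank κ L).factorization p ∣ X.ncard := by
  classical
  haveI : Fact p.Prime := ⟨hp⟩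
  let G := L ≃ₐ[κ] L
  let A : SubMulAction G (Fin n → L) :=
    { carrier := X
      smul_mem' := fun g x hx => hX g x hx }
  obtain ⟨P⟩ : Nonempty (Sylow p G) := inferInstance
  have h1 : Nat.card P = p ^ (Module.finrank κ L).factorization p := by
    rw [Sylow.card_eq_multiplicity, IsGalois.card_aut_eq_finrank]
  have h2 : Nat.card P ∣ Nat.card A := by
    apply card_dvd_of_free (P := P) (X := A)
    intro g x hgx
    by_contra hne
    -- an element of order `p`
    have hg1 : (g : G) ≠ 1 := fun h => hne (Subtype.ext h)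
    obtain ⟨j, hj⟩ : ∃ j, orderOf (g : G) = p ^ j := by
      obtain ⟨j, hj⟩ := P.isPGroup' g
      have h3 : (g : G) ^ p ^ j = 1 := by
        have := congrArg Subtype.val hj
        simpa using this
      obtain ⟨i, -, hi⟩ := (Nat.dvd_prime_pow hp).1 (orderOf_dvd_of_pow_eq_one h3)
      exact ⟨i, hi⟩
    have hj0 : j ≠ 0 := by
      rintro rfl
      rw [pow_zero, orderOf_eq_one_iff] at hj
      exact hg1 hj
    have hord : orderOf ((g : G) ^ p ^ (j - 1)) = p := by
      have h4 : p ^ j = p ^ (j - 1) * p := by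
        rw [← pow_succ]
        congr 1
        omega
      rw [orderOf_pow_of_dvd (pow_pos hp.pos _).ne' (by rw [hj]; exact pow_dvd_pow _ (by omega)),
        hj, h4, Nat.mul_div_cancel_left _ (pow_pos hp.pos _)]
    have hfix : ∀ i : ℕ, ((g : G) ^ i) • (x : Fin n → L) = x := by
      intro i
      induction i with
      | zero => rw [pow_zero, one_smul]
      | succ i ih =>
        rw [pow_succ, mul_smul]
        have h5 : (g : G) • (x : Fin n → L) = x := congrArg Subtype.val hgx
        rw [h5, ih]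
    exact hfree _ x.1 x.2 hord (hfix _)
  rw [← h1]
  exact h2

end Pool.Agent.Run7.h735.IK
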