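import Pool.Agent.Run7.h735.IK.Defs
import Pool.Agent.Run7.h735.IK.Orbit
import Pool.Agent.Y134.Cyc.Tate

/-!
# The number of points of iterated Kummer coverings
-/

set_option autoImplicit false

namespace Pool.Agent.Run7.h735.IK

open Finset Polynomial Pool.Agent.Y134.Cyc

variable {κ : Type} [Field κ]

lemma aeval_iter_nil {L : Type} [Field L] [Algebra κ L] (p : ℕ) (v : Fin 2 → L) :
    MvPolynomial.aeval v (iter p ([] : List κ[X])) = v 1 := by
  simp [iter]

lemma aeval_iter_cons {L : Type} [Field L] [Algebra κ L] (p : ℕ) (a : κ[X]) (l : List κ[X])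
    (v : Fin 2 → L) :
    MvPolynomial.aeval v (iter p (a :: l)) =
      MvPolynomial.aeval ![v 0, v 1 ^ p - aeval (v 0) a] (iter p l) := by
  rw [iter, MvPolynomial.aeval_bind₁]
  congr 2
  ext i
  fin_cases i
  · simp
  · have h1 : (MvPolynomial.aeval v) ((aeval (MvPolynomial.X (0 : Fin 2))) a : MvPolynomial (Fin 2) κ)
        = aeval (v 0) a := by
      rw [← Polynomial.aeval_algHom_apply, MvPolynomial.aeval_X]
    simp [h1]

lemma aeval_branch {L : Type} [Field L] [Algebra κ L] (p : ℕ) (a : κ[X]) (l : List κ[X]) (x : L) :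
    aeval x (branch p a l) = MvPolynomial.aeval ![x, - aeval x a] (iter p l) := by
  unfold branch
  have h1 : (aeval x : κ[X] →ₐ[κ] L) (MvPolynomial.aeval ![X, -a] (iter p l)) =
      MvPolynomial.aeval (fun i => aeval x ((![X, -a] : Fin 2 → κ[X]) i)) (iter p l) := by
    rw [← AlgHom.comp_apply, MvPolynomial.comp_aeval]
  rw [h1]
  congr 2
  ext i
  fin_cases i <;> simp

/-- The number of the `p`-th roots. -/
lemma ncard_roots {L : Type} [Field L] [Fintype L] {p : ℕ} (hp : p.Prime)
    (hdvd : p ∣ Fintype.card L - 1) (w : L) (hw : w ≠ 0) (h : ∃ y : L, y ^ p = w) :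
    Set.ncard {y : L | y ^ p = w} = p := by
  classical
  obtain ⟨y, hy⟩ := h
  have hy0 : y ≠ 0 := by
    rintro rfl
    rw [zero_pow hp.ne_zero] at hy
    exact hw hy.symm
  -- a primitive root
  obtain ⟨g, hg⟩ := IsCyclic.exists_generator (α := Lˣ)
  have hgo : orderOf g = Fintype.card L - 1 := by
    rw [orderOf_eq_card_of_forall_mem_zpowers hg, Nat.card_eq_fintype_card, Fintype.card_units]
  have hQ := Fintype.one_lt_card (α := L)
  obtain ⟨N, hN⟩ := hdvd
  have hz : IsPrimitiveRoot ((g : L) ^ N) p := by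
    have h1 : IsPrimitiveRoot (g : L) (Fintype.card L - 1) := by
      rw [← hgo, ← orderOf_units]
      exact IsPrimitiveRoot.orderOf _
    exact h1.pow (by omega) (by rw [hN]; ring)
  have h1 : {y : L | y ^ p = w} = (fun z => y * z) '' {z : L | z ^ p = 1} := by
    ext t
    constructor
    · intro ht
      refine ⟨t / y, ?_, by field_simp⟩
      change (t / y) ^ p = 1
      have ht' : t ^ p = w := ht
      rw [div_pow, ht', hy, div_self hw]
    · rintro ⟨z, hz, rfl⟩
      change (y * z) ^ p = w
      have hz' : z ^ p = 1 := hz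
      rw [mul_pow, hz', mul_one, hy]
  rw [h1, Set.ncard_image_of_injective _ (mul_right_injective₀ hy0)]
  have h2 : {z : L | z ^ p = 1} = ((nthRootsFinset p (1 : L) : Finset L) : Set L) := by
    ext t
    simp [mem_nthRootsFinset hp.pos]
  rw [h2, Set.ncard_coe_finset, hz.card_nthRootsFinset]

/-- The points of `F_l = 0`. -/
def pts (L : Type) [Field L] [Algebra κ L] (p : ℕ) (l : List κ[X]) : Set (Fin 2 → L) :=
  {v | MvPolynomial.aeval v (iter p l) = 0}

/-- The function on the curve `F_l = 0` whose `p`-th root is adjoined. -/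
noncomputable def rad {L : Type} [Field L] [Algebra κ L] (a : κ[X]) (v : Fin 2 → L) : L :=
  v 1 + aeval (v 0) a

section
variable {L : Type} [Field L] [Fintype L] [Algebra κ L]

lemma ncard_cons {p : ℕ} (hp : p.Prime) (hdvd : p ∣ Fintype.card L - 1) (a : κ[X])
    (l : List κ[X]) :
    (pts L p (a :: l)).ncard = (pts L p l ∩ {u | rad a u = 0}).ncard +
      p * (pts L p l ∩ {u | rad a u ≠ 0 ∧ ∃ y : L, y ^ p = rad a u}).ncard := by
  classical
  have h0 : (pts L p (a :: l)).ncard =
      ∑ u : Fin 2 → L, Set.ncard {t : L | u ∈ pts L p l ∧ t ^ p = rad a u} := by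
    have e1 : (pts L p (a :: l)).ncard =
        Set.ncard {z : (Fin 2 → L) × L | z.1 ∈ pts L p l ∧ z.2 ^ p = rad a z.1} := by
      refine Set.ncard_congr (fun v _ => (![v 0, v 1 ^ p - aeval (v 0) a], v 1)) ?_ ?_ ?_
      · intro v hv
        have hv' : MvPolynomial.aeval v (iter p (a :: l)) = 0 := hv
        rw [aeval_iter_cons] at hv'
        refine ⟨hv', ?_⟩
        change v 1 ^ p = (v 1 ^ p - aeval (v 0) a) + aeval (v 0) a
        ring
      · intro v v' _ _ h
        have h1 := congrArg (fun z => z.1 0) h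
        have h2 := congrArg (fun z => z.2) h
        ext i
        fin_cases i
        · simpa using h1
        · simpa using h2
      · rintro ⟨u, t⟩ ⟨hu, ht⟩
        refine ⟨![u 0, t], ?_, ?_⟩
        · change MvPolynomial.aeval ![u 0, t] (iter p (a :: l)) = 0
          rw [aeval_iter_cons]
          have ht' : t ^ p = u 1 + aeval (u 0) a := ht
          have e2 : (![(![u 0, t] : Fin 2 → L) 0,
              (![u 0, t] : Fin 2 → L) 1 ^ p - aeval ((![u 0, t] : Fin 2 → L) 0) a] : Fin 2 → L)
              = u := by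
            ext i
            fin_cases i
            · simp
            · simp [ht']
          rw [e2]
          exact hu
        · have ht' : t ^ p = u 1 + aeval (u 0) a := ht
          refine Prod.ext ?_ ?_
          · ext i
            fin_cases i
            · simp
            · simp [ht']
          · simp
    rw [e1, ncard_prod]
    rfl
  have h1 : ∀ u : Fin 2 → L, Set.ncard {t : L | u ∈ pts L p l ∧ t ^ p = rad a u} =
      (if u ∈ pts L p l ∩ {u | rad a u = 0} then 1 else 0) +
        p * (if u ∈ pts L p l ∩ {u | rad a u ≠ 0 ∧ ∃ y : L, y ^ p = rad a u} then 1 else 0) := by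
    intro u
    by_cases hu : u ∈ pts L p l
    · by_cases hw : rad a u = 0
      · rw [if_pos ⟨hu, hw⟩, if_neg (fun h => h.2.1 hw)]
        have e2 : {t : L | u ∈ pts L p l ∧ t ^ p = rad a u} = {0} := by
          ext t
          simp [hu, hw, hp.ne_zero]
        rw [e2, Set.ncard_singleton, mul_zero, add_zero]
      · rw [if_neg (fun h => hw h.2)]
        by_cases hy : ∃ y : L, y ^ p = rad a u
        · rw [if_pos ⟨hu, hw, hy⟩]
          have e2 : {t : L | u ∈ pts L p l ∧ t ^ p = rad a u} = {t : L | t ^ p = rad a u} := by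
            ext t
            simp [hu]
          rw [e2, ncard_roots hp hdvd _ hw hy]
          ring
        · rw [if_neg (fun h => hy h.2.2)]
          have e2 : {t : L | u ∈ pts L p l ∧ t ^ p = rad a u} = ∅ := by
            ext t
            simp only [Set.mem_ofPred_eq, Set.mem_empty_iff_false, iff_false]
            exact fun h => hy ⟨t, h.2⟩
          rw [e2, Set.ncard_empty]
          ring
    · rw [if_neg (fun h => hu h.1), if_neg (fun h => hu h.1)]
      have e2 : {t : L | u ∈ pts L p l ∧ t ^ p = rad a u} = ∅ := by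
        ext t
        simp [hu]
      rw [e2, Set.ncard_empty, mul_zero, add_zero]
  rw [h0, sum_congr rfl fun u _ => h1 u, sum_add_distrib, ← mul_sum]
  congr 1
  · rw [sum_boole, Set.ncard_eq_toFinset_card']
    simp only [Nat.cast_id]
    congr 1
    ext u
    simp
  · congr 1
    rw [sum_boole, Set.ncard_eq_toFinset_card']
    simp only [Nat.cast_id]
    congr 1
    ext u
    simp

lemma ncard_split (p : ℕ) (hp : p.Prime) (a : κ[X]) (l : List κ[X]) :
    (pts L p l).ncard = (pts L p l ∩ {u | rad a u = 0}).ncard +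
      (pts L p l ∩ {u | rad a u ≠ 0 ∧ ∃ y : L, y ^ p = rad a u}).ncard +
      (pts L p l ∩ {u | ¬ ∃ y : L, y ^ p = rad a u}).ncard := by
  classical
  have h1 : pts L p l = (pts L p l ∩ {u | rad a u = 0}) ∪
      ((pts L p l ∩ {u | rad a u ≠ 0 ∧ ∃ y : L, y ^ p = rad a u}) ∪
      (pts L p l ∩ {u | ¬ ∃ y : L, y ^ p = rad a u})) := by
    ext u
    simp only [Set.mem_union, Set.mem_inter_iff, Set.mem_ofPred_eq]
    tauto
  conv_lhs => rw [h1]
  rw [Set.ncard_union_eq, Set.ncard_union_eq, add_assoc]
  · rw [Set.disjoint_left]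
    rintro u ⟨-, h2⟩ ⟨-, h3⟩
    exact h3 h2.2
  · rw [Set.disjoint_left]
    rintro u ⟨-, h2⟩ h3
    have h2' : rad a u = 0 := h2
    rcases h3 with h3 | h3
    · exact h3.2.1 h2'
    · exact h3.2 ⟨0, by rw [zero_pow hp.ne_zero, h2']⟩

lemma ncard_branch (p : ℕ) (a : κ[X]) (l : List κ[X]) :
    (pts L p l ∩ {u | rad a u = 0}).ncard = {x : L | aeval x (branch p a l) = 0}.ncard := by
  symm
  refine Set.ncard_congr (fun x _ => ![x, - aeval x a]) ?_ ?_ ?_
  · intro x hx
    have hx' : aeval x (branch p a l) = 0 := hx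
    rw [aeval_branch] at hx'
    exact ⟨hx', by simp [rad]⟩
  · intro x x' _ _ h
    have h1 := congrFun h 0
    simpa using h1
  · rintro u ⟨hu, hw⟩
    have hw' : u 1 + aeval (u 0) a = 0 := hw
    have e1 : (![u 0, - aeval (u 0) a] : Fin 2 → L) = u := by
      ext i
      fin_cases i
      · simp
      · simp only [Fin.mk_one, Matrix.cons_val_one, Matrix.cons_val_fin_one]
        linear_combination -hw'
    refine ⟨u 0, ?_, e1⟩
    change aeval (u 0) (branch p a l) = 0
    rw [aeval_branch, e1]
    exact hu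

end

/-- **The congruence.** -/
theorem congr_cons {L : Type} [Fintype κ] [Field L] [Fintype L] [Algebra κ L] {p : ℕ}
    (hp : p.Prime) (hdvd : p ∣ Fintype.card κ - 1) (a : κ[X]) (l : List κ[X]) :
    ((p : ℤ) ^ ((Module.finrank κ L).factorization p + 1)) ∣
      ((pts L p (a :: l)).ncard : ℤ) - ((1 - p) * ({x : L | aeval x (branch p a l) = 0}.ncard : ℤ)
        + p * ((pts L p l).ncard : ℤ)) := by
  classical
  have hdvdL : p ∣ Fintype.card L - 1 := by
    have := card_dvd (n := p) hdvd L
    exact this
  have h1 := ncard_cons hp hdvdL a l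
  have h2 := ncard_split (L := L) p hp a l
  rw [ncard_branch] at h1 h2
  have h3 : p ^ (Module.finrank κ L).factorization p ∣
      (pts L p l ∩ {u | ¬ ∃ y : L, y ^ p = rad a u}).ncard := by
    refine pow_dvd_ncard hp _ ?_ ?_
    · rintro g x ⟨hx, hx'⟩
      have hx1 : MvPolynomial.aeval x (iter p l) = 0 := hx
      have hg : ∀ F : MvPolynomial (Fin 2) κ, MvPolynomial.aeval (fun i => g (x i)) F =
          g (MvPolynomial.aeval x F) := by
        intro F
        have e1 := MvPolynomial.comp_aeval (R := κ) x (g : L →ₐ[κ] L)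
        have e2 := congrArg (fun f => f F) e1
        exact e2.symm
      refine ⟨?_, ?_⟩
      · change MvPolynomial.aeval (fun i => g (x i)) (iter p l) = 0
        rw [hg, hx1, map_zero]
      · rintro ⟨y, hy⟩
        apply hx'
        refine ⟨g.symm y, ?_⟩
        have e3 : rad a (fun i => g (x i)) = g (rad a x) := by
          unfold rad
          rw [map_add]
          congr 1
          exact aeval_algHom_apply (g : L →ₐ[κ] L) (x 0) a
        rw [e3] at hy
        rw [← map_pow, hy, AlgEquiv.symm_apply_apply]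
    · intro g x hx hg hfix
      apply hx.2
      apply exists_root_of_fixed hp hdvd hg
      have h4 : ∀ i, g (x i) = x i := fun i => congrFun hfix i
      unfold rad
      rw [map_add, h4 1]
      congr 1
      have e4 : g (aeval (x 0) a) = aeval (g (x 0)) a := by
        have := aeval_algHom_apply (g : L →ₐ[κ] L) (x 0) a
        exact this.symm
      rw [e4, h4 0]
  obtain ⟨c, hc⟩ := h3
  refine ⟨-(c : ℤ), ?_⟩
  rw [h1, h2, hc]
  push_cast
  ring

end Pool.Agent.Run7.h735.IK
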