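import Pool.Agent.Run7.h735.CF.Defs

/-!
# Iterated Kummer coverings of the line: definitions
-/

set_option autoImplicit false

universe u

namespace Pool.Agent.Run7.h735.IK

open Polynomial

/-- The polynomial `F_l(x, y)` for a list `l` of polynomials in one variable: `F_[] = y` and
`F_(a :: l)(x, y) = F_l(x, y ^ p - a(x))`; so `F_[a₁, a₂] = (y ^ p - a₁(x)) ^ p - a₂(x)`, and so on. -/
noncomputable def iter {κ : Type} [Field κ] (p : ℕ) : List κ[X] → MvPolynomial (Fin 2) κ
  | [] => MvPolynomial.X 1
  | a :: l => MvPolynomial.bind₁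
      ![MvPolynomial.X 0, MvPolynomial.X 1 ^ p - aeval (MvPolynomial.X (0 : Fin 2)) a] (iter p l)

/-- The polynomial `F_l(x, - a(x))`. -/
noncomputable def branch {κ : Type} [Field κ] (p : ℕ) (a : κ[X]) (l : List κ[X]) : κ[X] :=
  MvPolynomial.aeval ![X, -a] (iter p l)

/-- The polynomial `G` is, up to a constant, a power of an irreducible polynomial of degree `D`. -/
def IsPrimePower {κ : Type} [Field κ] (G : κ[X]) (D : ℕ) : Prop :=
  ∃ (π : κ[X]) (e : ℕ), Irreducible π ∧ 0 < e ∧ π.natDegree = D ∧ Associated G (π ^ e)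

/-- The polynomials `F_l(x, - a(x))`, for all end pieces `a :: l` of the given list, are powers of
irreducible polynomials of the given degrees. -/
def HasDegrees {κ : Type} [Field κ] (p : ℕ) : List κ[X] → List ℕ → Prop
  | [], [] => True
  | a :: l, D :: t => IsPrimePower (branch p a l) D ∧ HasDegrees p l t
  | _, _ => False

/-- The sum `∑ w p ^ (j - 1) f(D_j)` for the list of the `D_j`, `j = 1, 2, …`. -/
def weighted (p w : ℕ) (f : ℕ → ℕ) : List ℕ → ℕ
  | [] => 0
  | D :: t => w * f D + p * weighted p w f t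

end Pool.Agent.Run7.h735.IK
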