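import Pool.Agent.Run7.h735.IK.Roots

/-!
# The zeta function of an iterated Kummer curve modulo `p`
-/

set_option autoImplicit false

namespace Pool.Agent.Run7.h735.IK

open Finset Polynomial Pool.Agent.Y134.Cyc Pool.Agent.W528.HS Pool.Agent.W111.HS.EC

lemma curvePoints_eq {κ : Type} [Field κ] (p : ℕ) (l : List κ[X]) (L : Type) [Field L]
    [Algebra κ L] : curvePoints (iter p l) L = (pts L p l).ncard := rfl

lemma dsum_add (e e' : ℕ → ℤ) (m : ℕ) : dsum (fun d => e d + e' d) m = dsum e m + dsum e' m := by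
  unfold dsum
  rw [← sum_add_distrib]
  exact sum_congr rfl fun d _ => by ring

lemma dsum_sub (e e' : ℕ → ℤ) (m : ℕ) : dsum (fun d => e d - e' d) m = dsum e m - dsum e' m := by
  unfold dsum
  rw [← sum_sub_distrib]
  exact sum_congr rfl fun d _ => by ring

lemma dsum_single (c : ℤ) {m : ℕ} (hm : 1 ≤ m) :
    dsum (fun d => if d = 1 then c else 0) m = c := by
  unfold dsum
  rw [sum_eq_single 1]
  · simp
  · intro b _ hb
    change (b : ℤ) * (if b = 1 then c else 0) = 0
    rw [if_neg hb, mul_zero]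
  · intro h
    exact absurd (Nat.mem_divisors.2 ⟨one_dvd m, by omega⟩) h

/-- **The zeta function of an iterated Kummer curve modulo `p`.** -/
theorem quotient_eq {p : ℕ} (hp : p.Prime) {κ : Type} [Field κ] [Fintype κ]
    (hdvd : p ∣ Fintype.card κ - 1) {l : List κ[X]} {t : List ℕ} (hl : HasDegrees p l t)
    {E : Type} [Field E] [CharZero E] [IsAlgClosed E] (P₁ P₂ : ℤ[X]) (B₁ B₂ : Multiset E)
    (hB₁ : P₁.map (Int.castRingHom E) = (B₁.map fun x => 1 - C x * X).prod)
    (hB₂ : P₂.map (Int.castRingHom E) = (B₂.map fun x => 1 - C x * X).prod)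
    (hC : ∀ (L : Type) [Field L] [Fintype L] [Algebra κ L],
      (curvePoints (iter p l) L : E) =
        Fintype.card L - (B₁.map fun x => x ^ Module.finrank κ L).sum
          + (B₂.map fun x => x ^ Module.finrank κ L).sum) :
    hpoly (ZMod p) p t * P₂.map (Int.castRingHom (ZMod p)) =
      P₁.map (Int.castRingHom (ZMod p)) := by
  classical
  have hfact : Fact p.Prime := ⟨hp⟩
  obtain ⟨e₀, he₀⟩ := closed_points (iter p ([] : List κ[X]))
  obtain ⟨e₁, he₁⟩ := closed_points (iter p l)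
  set r := p ^ t.length - 1 with hr
  have hr1 : ((r : ℕ) : ℤ) = (p : ℤ) ^ t.length - 1 := by
    have : 1 ≤ p ^ t.length := Nat.one_le_pow _ _ hp.pos
    rw [hr]
    push_cast [this]
    ring
  let w : ℕ → ℤ := fun d => ((weighted p (p - 1) (fun D => if D = d then 1 else 0) t : ℕ) : ℤ)
  let e : ℕ → ℤ := fun d => ((e₀ d - e₁ d) + (if d = 1 then (r : ℤ) else 0)) - w d
  have hsum : ∀ m, 1 ≤ m → dsum e m = (dsum e₀ m - dsum e₁ m) + r -
      ((weighted p (p - 1) (fun D => if D ∣ m then D else 0) t : ℕ) : ℤ) := by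
    intro m hm
    change dsum (fun d => ((e₀ d - e₁ d) + (if d = 1 then (r : ℤ) else 0)) - w d) m = _
    rw [dsum_sub, dsum_add, dsum_sub, dsum_single _ hm, weighted_dsum p (p - 1) hm t]
  have key := zeta_congr hp (E := E) (P₁ * (1 - X) ^ r) (P₂ * upoly ℤ p t)
    (B₁ + Multiset.replicate r 1) (B₂ + uroots E p t)
    (by
      rw [Polynomial.map_mul, hB₁, Multiset.map_add, Multiset.prod_add, Multiset.map_replicate,
        Multiset.prod_replicate]
      simp)
    (by
      rw [Polynomial.map_mul, hB₂, Multiset.map_add, Multiset.prod_add, map_upoly,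
        prod_uroots E p t hl.pos])
    e
    (by
      intro m hm
      obtain ⟨L, _, _, _, hL⟩ := exists_ext κ m hm
      have h1 := hC L
      have h2 := he₀ L
      have h3 := he₁ L
      rw [hL] at h1 h2 h3
      rw [curvePoints_eq, ncard_nil] at h2
      rw [hsum m hm, ← h2, ← h3, Multiset.map_add, Multiset.sum_add, Multiset.map_add,
        Multiset.sum_add, Multiset.map_replicate, Multiset.sum_replicate,
        sum_uroots E p hm t hl.pos]
      push_cast
      rw [h1, one_pow, nsmul_eq_mul, mul_one]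
      ring)
    (by
      intro m hm
      obtain ⟨L, _, _, _, hL⟩ := exists_ext κ m hm
      have h2 := he₀ L
      have h3 := he₁ L
      have h4 := total hp hdvd L l t hl
      have h5 := pow_dvd_card_sub_one (κ := κ) hdvd m hm
      have h6 : (Fintype.card L : ℤ) = (Fintype.card κ : ℤ) ^ m := by
        rw [Module.card_eq_pow_finrank (K := κ) (V := L), hL]
        push_cast
        rfl
      rw [hL] at h2 h3 h4
      rw [curvePoints_eq, ncard_nil] at h2
      rw [curvePoints_eq] at h3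
      rw [hsum m hm, ← h2, ← h3, hr1, h6, hl.length]
      have h7 := dvd_sub h5 h4
      refine h7.trans (dvd_of_eq ?_)
      ring)
  rw [Polynomial.map_mul, Polynomial.map_mul, map_upoly, upoly_eq (ZMod p) hp.pos t] at key
  have h1 : ((1 - X : ℤ[X]) ^ r).map (Int.castRingHom (ZMod p)) = (1 - X) ^ r := by simp
  rw [h1] at key
  have hne : ((1 - X : (ZMod p)[X])) ^ r ≠ 0 := by
    apply pow_ne_zero
    intro h0
    have := congrArg (Polynomial.eval 0) h0
    simp at this
  apply mul_right_cancel₀ hne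
  rw [key]
  ring

/-- The multiplicities of the cyclotomic polynomials. -/
def mult (p : ℕ) (t : List ℕ) (M : ℕ) : ℕ :=
  weighted p (p - 1) (fun D => if M ∣ D ∧ M ≠ 1 then 1 else 0) t

section
variable {p : ℕ} [Fact p.Prime] {Kb : Type} [Field Kb] [CharP Kb p]

lemma rootMultiplicity_geom {D M : ℕ} (hD : ¬ p ∣ D) {ζ : Kb} (hζ : IsPrimitiveRoot ζ M) :
    (∑ i ∈ range D, (X : Kb[X]) ^ i).rootMultiplicity ζ ≤ if M ∣ D ∧ M ≠ 1 then 1 else 0 := by
  classical
  have hD0 : 0 < D := Nat.pos_of_ne_zero (by rintro rfl; exact hD (dvd_zero p))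
  have hDKb : (D : Kb) ≠ 0 := by rwa [Ne, CharP.cast_eq_zero_iff Kb p D]
  have hgeom : (∑ i ∈ range D, (X : Kb[X]) ^ i) * (X - 1) = X ^ D - 1 := geom_sum_mul X D
  have hne : (X ^ D - 1 : Kb[X]) ≠ 0 := (X_pow_sub_one_separable_iff.2 hDKb).ne_zero
  have hle : (∑ i ∈ range D, (X : Kb[X]) ^ i).rootMultiplicity ζ ≤
      (X ^ D - 1 : Kb[X]).rootMultiplicity ζ := by
    apply rootMultiplicity_le_rootMultiplicity_of_dvd hne
    exact ⟨X - 1, hgeom.symm⟩
  have hle1 : (X ^ D - 1 : Kb[X]).rootMultiplicity ζ ≤ 1 :=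
    rootMultiplicity_le_one_of_separable (X_pow_sub_one_separable_iff.2 hDKb) ζ
  by_cases h1 : M ∣ D
  · by_cases h2 : M = 1
    · rw [if_neg (fun h => h.2 h2)]
      subst h2
      have hζ1 : ζ = 1 := by
        have := hζ.pow_eq_one
        rwa [pow_one] at this
      rw [Nat.le_zero]
      apply rootMultiplicity_eq_zero
      rw [IsRoot.def, hζ1, eval_finset_sum]
      simpa using hDKb
    · rw [if_pos ⟨h1, h2⟩]
      exact hle.trans hle1
  · rw [if_neg (fun h => h1 h.1)]
    refine hle.trans (Nat.le_zero.2 ?_)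
    apply rootMultiplicity_eq_zero
    rw [IsRoot.def, eval_sub, eval_pow, eval_X, eval_one, sub_eq_zero]
    intro h
    exact h1 ((hζ.pow_eq_one_iff_dvd D).1 h)

lemma hpoly_ne_zero : ∀ t : List ℕ, (∀ D ∈ t, ¬ p ∣ D) → hpoly Kb p t ≠ 0
  | [], _ => by simp [hpoly]
  | D :: t, h => by
    have hD : ¬ p ∣ D := h D List.mem_cons_self
    rw [hpoly]
    refine mul_ne_zero (pow_ne_zero _ ?_) (pow_ne_zero _ (hpoly_ne_zero t fun D hD =>
      h D (List.mem_cons_of_mem _ hD)))
    intro h0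
    have h1 : (X ^ D - 1 : Kb[X]) = 0 := by
      rw [← geom_sum_mul (X : Kb[X]) D, h0, zero_mul]
    have hDKb : (D : Kb) ≠ 0 := by rwa [Ne, CharP.cast_eq_zero_iff Kb p D]
    exact (X_pow_sub_one_separable_iff.2 hDKb).ne_zero h1

lemma rootMultiplicity_pow' {f : Kb[X]} (hf : f ≠ 0) (ζ : Kb) (n : ℕ) :
    (f ^ n).rootMultiplicity ζ = n * f.rootMultiplicity ζ := by
  induction n with
  | zero => simp
  | succ n ih =>
    rw [pow_succ, rootMultiplicity_mul (mul_ne_zero (pow_ne_zero n hf) hf), ih]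
    ring

lemma rootMultiplicity_hpoly {M : ℕ} {ζ : Kb} (hζ : IsPrimitiveRoot ζ M) : ∀ t : List ℕ,
    (∀ D ∈ t, ¬ p ∣ D) → (hpoly Kb p t).rootMultiplicity ζ ≤ mult p t M
  | [], _ => by
    rw [hpoly, ← C_1, rootMultiplicity_C]
    exact Nat.zero_le _
  | D :: t, h => by
    have hD : ¬ p ∣ D := h D List.mem_cons_self
    have ht : ∀ D ∈ t, ¬ p ∣ D := fun D hD => h D (List.mem_cons_of_mem _ hD)
    have h0 := hpoly_ne_zero (Kb := Kb) (D :: t) h
    rw [hpoly] at h0 ⊢
    have h1 := left_ne_zero_of_mul h0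
    have h2 := hpoly_ne_zero (Kb := Kb) t ht
    have h3 : (∑ i ∈ range D, (X : Kb[X]) ^ i) ≠ 0 := by
      intro h4
      have hp1 : p - 1 ≠ 0 ∨ p - 1 = 0 := by tauto
      have h5 : (X ^ D - 1 : Kb[X]) = 0 := by
        rw [← geom_sum_mul (X : Kb[X]) D, h4, zero_mul]
      have hDKb : (D : Kb) ≠ 0 := by rwa [Ne, CharP.cast_eq_zero_iff Kb p D]
      exact (X_pow_sub_one_separable_iff.2 hDKb).ne_zero h5
    rw [rootMultiplicity_mul h0, rootMultiplicity_pow' h3, rootMultiplicity_pow' h2]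
    change _ ≤ (p - 1) * (if M ∣ D ∧ M ≠ 1 then 1 else 0) + p * mult p t M
    exact Nat.add_le_add (Nat.mul_le_mul_left _ (rootMultiplicity_geom hD hζ))
      (Nat.mul_le_mul_left _ (rootMultiplicity_hpoly hζ t ht))

end

/-- The cyclotomic polynomials divide `hpoly` at most `mult` times. -/
theorem dividesAt {p : ℕ} (hp : p.Prime) {t : List ℕ} (ht : ∀ D ∈ t, ¬ p ∣ D) (m : ℕ)
    (hm : 0 < m) : CF.DividesAt p (hpoly (ZMod p) p t) (mult p t) m := by
  classical
  have hfact : Fact p.Prime := ⟨hp⟩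
  intro M hMm hMp hdvd
  have hM0 : 0 < M := Nat.pos_of_dvd_of_pos hMm hm
  let Kb := AlgebraicClosure (ZMod p)
  have hchar : CharP Kb p := charP_of_injective_algebraMap (algebraMap (ZMod p) Kb).injective p
  have hMKb : NeZero (M : Kb) := ⟨by rwa [Ne, CharP.cast_eq_zero_iff Kb p M]⟩
  obtain ⟨ζ, hζ⟩ : ∃ ζ : Kb, IsPrimitiveRoot ζ M := by
    obtain ⟨ζ, hζ⟩ := IsAlgClosed.exists_root (cyclotomic M Kb)
      (by rw [degree_cyclotomic]; exact_mod_cast (Nat.totient_pos.2 hM0).ne')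
    exact ⟨ζ, isRoot_cyclotomic_iff.1 hζ⟩
  have h1 := Polynomial.map_dvd (algebraMap (ZMod p) Kb) hdvd
  rw [Polynomial.map_pow, map_cyclotomic, map_hpoly] at h1
  have h2 : (X - C ζ) ^ (mult p t M + 1) ∣ hpoly Kb p t := by
    refine (pow_dvd_pow_of_dvd ?_ _).trans h1
    rw [dvd_iff_isRoot]
    exact isRoot_cyclotomic_iff.2 hζ
  have h3 := (le_rootMultiplicity_iff (hpoly_ne_zero (Kb := Kb) t ht)).2 h2
  have h4 := rootMultiplicity_hpoly hζ t ht
  omega

/-- The value of the bound. -/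
theorem level_value {p : ℕ} (hp : p.Prime) (s : ℕ) {m : ℕ} (hm : 0 < m) : ∀ t : List ℕ,
    (∀ D ∈ t, ¬ p ∣ D) →
    CF.levelBound p s (mult p t) m =
      (p ^ s - 1) * weighted p (p - 1) (fun D => Nat.gcd m D - 1) t := by
  intro t ht
  unfold CF.levelBound
  congr 1
  induction t with
  | nil => simp [mult, weighted]
  | cons D t ih =>
    have hD : ¬ p ∣ D := ht D List.mem_cons_self
    have h1 := ih fun D hD => ht D (List.mem_cons_of_mem _ hD)
    have h2 : ∀ M, mult p (D :: t) M = (p - 1) * (if M ∣ D ∧ M ≠ 1 then 1 else 0) +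
        p * mult p t M := fun M => rfl
    simp only [h2, mul_add, sum_add_distrib, weighted]
    have h3 : ∑ M ∈ m.divisors.filter (fun M => ¬ p ∣ M), M.totient * (p * mult p t M) =
        p * ∑ M ∈ m.divisors.filter (fun M => ¬ p ∣ M), M.totient * mult p t M := by
      rw [mul_sum]
      exact sum_congr rfl fun M _ => by ring
    rw [h3, h1]
    congr 1
    have h4 : ∑ M ∈ m.divisors.filter (fun M => ¬ p ∣ M),
        M.totient * ((p - 1) * (if M ∣ D ∧ M ≠ 1 then 1 else 0)) =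
        (p - 1) * ∑ M ∈ (Nat.gcd m D).divisors.erase 1, M.totient := by
      rw [mul_sum]
      have h5 : ∀ M ∈ m.divisors.filter (fun M => ¬ p ∣ M),
          M.totient * ((p - 1) * (if M ∣ D ∧ M ≠ 1 then 1 else 0)) =
          if M ∣ D ∧ M ≠ 1 then (p - 1) * M.totient else 0 := by
        intro M _
        split_ifs
        · ring
        · ring
      rw [sum_congr rfl h5, ← sum_filter]
      refine sum_congr ?_ fun _ _ => rfl
      ext M
      simp only [mem_filter, Nat.mem_divisors, mem_erase, Nat.dvd_gcd_iff]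
      constructor
      · rintro ⟨⟨⟨h6, h7⟩, h8⟩, h9, h10⟩
        exact ⟨h10, ⟨h6, h9⟩, (Nat.gcd_pos_of_pos_left D hm).ne'⟩
      · rintro ⟨h6, ⟨h7, h8⟩, -⟩
        exact ⟨⟨⟨h7, hm.ne'⟩, fun h9 => hD (h9.trans h8)⟩, h8, h6⟩
    rw [h4]
    congr 1
    have h6 : 1 ∈ (Nat.gcd m D).divisors :=
      Nat.mem_divisors.2 ⟨one_dvd _, (Nat.gcd_pos_of_pos_left D hm).ne'⟩
    have h7 := Nat.sum_totient (Nat.gcd m D)
    rw [← add_sum_erase _ _ h6, Nat.totient_one] at h7
    omega

end Pool.Agent.Run7.h735.IK
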