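import Pool.Agent.Run7.h735.IK.Surf
import Pool.Agent.Run7.h735.IK.Quot
import Pool.Agent.Run7.h735.CF.Tate

/-!
# Iterated Kummer surfaces: Conjecture T
-/

set_option autoImplicit false

universe u

namespace Pool.Agent.Run7.h735.IK

open Polynomial Pool.Agent.Y134.Cyc Pool.Agent.Y134.TF Pool.Agent.TH125.Gal Pool.Agent.Y130
  Pool.Agent.Run7.h735.CP Pool.Agent.Run7.h735.CF Pool.Agent.Run7.h735.TP
open Pool.Agent.H914 Pool.Agent.H914.VarClass Pool.Agent.H914.VarClass.Obj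
  Pool.Agent.H914.WeilCohomology Pool.Agent.H281R3.HT

variable {k : Type u} [Field k] {𝒱 : VarClass k} {ops : CycleOps 𝒱}
  {W : WeilCohomology.{u, 0} ops} [IsAlgClosed W.K] {Γ : Type} [Group Γ] {χ : Γ →* W.Kˣ}
  {S : PVar W Γ} {p s : ℕ} {κ : Type} [Field κ] [Fintype κ]

lemma p_dvd (hs : 1 ≤ s) {F : MvPolynomial (Fin 2) κ}
    (v : CyclicSurface χ S.act S.P p s κ F) : p ∣ Fintype.card κ - 1 :=
  (dvd_pow_self p (by omega)).trans v.dvd

/-- The place with the explicit quotient. -/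
noncomputable def toPlace (hp : p.Prime) (hs : 1 ≤ s) {l : List κ[X]} {t : List ℕ}
    (hl : HasDegrees p l t) (v : CyclicSurface χ S.act S.P p s κ (iter p l)) :
    CyclicPlace χ S.act S.P p s (hpoly (ZMod p) p t) where
  κ := κ
  dvd := v.dvd
  F := iter p l
  θ := v.θ
  order := v.order
  φ := v.φ
  frob := v.frob
  zeta :=
    { P₁ := v.zeta.P₁
      P₂ := v.zeta.P₂
      B₁ := v.zeta.B₁
      B₂ := v.zeta.B₂
      roots₁ := v.zeta.roots₁
      roots₂ := v.zeta.roots₂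
      curve := v.zeta.curve
      quotient := quotient_eq hp (p_dvd hs v) hl v.zeta.P₁ v.zeta.P₂ v.zeta.B₁ v.zeta.B₂
        v.zeta.roots₁.2 v.zeta.roots₂.2 v.zeta.curve }
  stable := v.stable
  parts := v.parts

/-- **The bound at every level.** -/
theorem boundAt (h : Cover χ S 1) (hp : p.Prime) (hs : 1 ≤ s) {l : List κ[X]} {t : List ℕ}
    (hl : HasDegrees p l t) (ht : ∀ D ∈ t, ¬ p ∣ D)
    (v : CyclicSurface χ S.act S.P p s κ (iter p l)) {m : ℕ} (hm : 0 < m) :
    BoundAt χ S (v.φ ^ m) (kummerBound p s t m) := by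
  have h1 := CF.main h hp hs (toPlace hp hs hl v) hm (mult p t) (dividesAt hp ht m hm)
  rw [level_value hp s hm t ht] at h1
  exact h1

lemma weighted_zero (p w : ℕ) (f : ℕ → ℕ) : ∀ t : List ℕ, (∀ D ∈ t, f D = 0) →
    weighted p w f t = 0
  | [], _ => rfl
  | D :: t, h => by
    rw [weighted, h D List.mem_cons_self, weighted_zero p w f t fun D hD =>
      h D (List.mem_cons_of_mem _ hD)]
    rfl

theorem kummerBound_zero (p s : ℕ) (t : List ℕ) (m : ℕ) (h : ∀ D ∈ t, Nat.Coprime m D) :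
    kummerBound p s t m = 0 := by
  unfold kummerBound
  rw [weighted_zero p (p - 1) _ t fun D hD => by
    have h1 : Nat.gcd m D = 1 := h D hD
    change Nat.gcd m D - 1 = 0
    rw [h1]]
  rfl

/-- **The towers.** -/
theorem tower (h : Cover χ S 1) (hp : p.Prime) (hs : 1 ≤ s) {l : List κ[X]} {t : List ℕ} {N : ℕ}
    (hN : Odd N) (hpN : ¬ p ∣ N) (hl : HasKummerDegrees N p l t) (ht : ∀ D ∈ t, ¬ p ∣ D)
    (v : CyclicSurface χ S.act S.P p s κ (iter p (compList (X ^ N) l))) {m : ℕ} (hm : 0 < m)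
    (hmN : Nat.Coprime m N) (hmt : ∀ D ∈ t, Nat.Coprime m D) :
    TateForDivisors χ S (v.φ ^ m) := by
  refine (boundAt h hp hs (hasDegrees_comp hN hl) ?_ v hm).zero (kummerBound_zero p s _ m ?_)
  · intro D hD
    obtain ⟨D', hD', rfl⟩ := List.mem_map.1 hD
    intro h1
    rcases (Nat.Prime.dvd_mul hp).1 h1 with h2 | h2
    · exact ht D' hD' h2
    · exact hpN h2
  · intro D hD
    obtain ⟨D', hD', rfl⟩ := List.mem_map.1 hD
    exact Nat.Coprime.mul_right (hmt D' hD') hmN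

end Pool.Agent.Run7.h735.IK
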