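import Pool.Agent.Run7.h735.IK.Defs

/-!
# Pullbacks by `x ↦ x ^ N`
-/

set_option autoImplicit false

namespace Pool.Agent.Run7.h735.IK

open Finset Polynomial IntermediateField

variable {κ : Type} [Field κ]

lemma aeval_cons {R : Type} [CommRing R] [Algebra κ R] (p : ℕ) (a : κ[X]) (l : List κ[X])
    (x t : R) :
    MvPolynomial.aeval ![x, t] (iter p (a :: l)) =
      MvPolynomial.aeval ![x, t ^ p - aeval x a] (iter p l) := by
  rw [iter, MvPolynomial.aeval_bind₁]
  congr 2
  ext i
  fin_cases i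
  · simp
  · have h1 : (MvPolynomial.aeval ![x, t]) ((aeval (MvPolynomial.X (0 : Fin 2))) a :
        MvPolynomial (Fin 2) κ) = aeval x a := by
      rw [← Polynomial.aeval_algHom_apply, MvPolynomial.aeval_X]
      rfl
    simp [h1]

/-- The list of the polynomials `a(g(x))`. -/
noncomputable def compList (g : κ[X]) (l : List κ[X]) : List κ[X] := l.map fun a => a.comp g

lemma aeval_comp {R : Type} [CommRing R] [Algebra κ R] (p : ℕ) (g : κ[X]) :
    ∀ (l : List κ[X]) (x t : R),
    MvPolynomial.aeval ![x, t] (iter p (compList g l)) =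
      MvPolynomial.aeval ![aeval x g, t] (iter p l)
  | [], x, t => by simp [compList, iter]
  | a :: l, x, t => by
    have h1 : compList g (a :: l) = a.comp g :: compList g l := rfl
    rw [h1, aeval_cons, aeval_cons, aeval_comp p g l, aeval_comp_eq]
where
  aeval_comp_eq {R : Type} [CommRing R] [Algebra κ R] {a g : κ[X]} {x : R} :
    aeval x (a.comp g) = aeval (aeval x g) a := Polynomial.aeval_comp x

lemma branch_comp (p : ℕ) (g a : κ[X]) (l : List κ[X]) :
    branch p (a.comp g) (compList g l) = (branch p a l).comp g := by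
  unfold branch
  rw [aeval_comp]
  have h1 : ((MvPolynomial.aeval ![X, -a] (iter p l) : κ[X])).comp g =
      (compRingHom g) (MvPolynomial.aeval ![X, -a] (iter p l)) := rfl
  have h2 : ((MvPolynomial.aeval ![X, -a] (iter p l) : κ[X])).comp g =
      aeval g (MvPolynomial.aeval ![X, -a] (iter p l) : κ[X]) := by
    rw [Polynomial.comp, Polynomial.aeval_def]
    rfl
  rw [h2]
  have h3 : (aeval g : κ[X] →ₐ[κ] κ[X]) (MvPolynomial.aeval ![X, -a] (iter p l)) =
      MvPolynomial.aeval (fun i => aeval g ((![X, -a] : Fin 2 → κ[X]) i)) (iter p l) := by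
    rw [← AlgHom.comp_apply, MvPolynomial.comp_aeval]
  rw [h3]
  congr 2
  ext1 i
  fin_cases i
  · simp
  · simp only [Fin.mk_one, Matrix.cons_val_one, Matrix.cons_val_fin_one, map_neg]
    rw [Polynomial.comp, Polynomial.aeval_def]
    rfl

/-- The polynomial `G` is, up to a constant, a power of a monic irreducible polynomial `π` of degree `D`, and for all
primes `ℓ` dividing `N` the number `(-1) ^ D π(0)` is not an `ℓ`-th power. -/
def IsKummerPower (N : ℕ) (G : κ[X]) (D : ℕ) : Prop :=
  ∃ (π : κ[X]) (e : ℕ), Irreducible π ∧ π.Monic ∧ 0 < e ∧ π.natDegree = D ∧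
    Associated G (π ^ e) ∧ ∀ ℓ : ℕ, ℓ.Prime → ℓ ∣ N → ∀ b : κ, b ^ ℓ ≠ (-1) ^ D * π.coeff 0

/-- The polynomials `F_l(x, - a(x))`, for all end pieces `a :: l` of the given list, have the property `IsKummerPower`
with the given degrees. -/
def HasKummerDegrees (N p : ℕ) : List κ[X] → List ℕ → Prop
  | [], [] => True
  | a :: l, D :: t => IsKummerPower N (branch p a l) D ∧ HasKummerDegrees N p l t
  | _, _ => False

/-- The composition with `x ^ N` is irreducible. -/
theorem irreducible_comp_pow {N : ℕ} (hN : Odd N) {π : κ[X]} (hπ : Irreducible π)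
    (hmon : π.Monic) (h : ∀ ℓ : ℕ, ℓ.Prime → ℓ ∣ N → ∀ b : κ, b ^ ℓ ≠ (-1) ^ π.natDegree * π.coeff 0) :
    Irreducible (π.comp (X ^ N)) := by
  apply Polynomial.irreducible_comp hmon (monic_X_pow N) hπ
  intro E _ _ x hx
  have hint : IsIntegral κ x := not_not.mp fun h0 => by
    have h1 := hx.symm.trans (dif_neg h0)
    exact hπ.ne_zero h1
  rw [Polynomial.map_pow, map_X]
  apply X_pow_sub_C_irreducible_of_odd hN
  intro ℓ hℓ hℓN b hb
  apply h ℓ hℓ hℓN (Algebra.norm κ b)
  rw [← map_pow, hb, ← adjoin.powerBasis_gen hint,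
    Algebra.PowerBasis.norm_gen_eq_coeff_zero_minpoly]
  simp only [adjoin.powerBasis_gen, adjoin.powerBasis_dim, minpoly_gen, hx]

theorem isPrimePower_comp {N : ℕ} (hN : Odd N) {G : κ[X]} {D : ℕ} (h : IsKummerPower N G D) :
    IsPrimePower (G.comp (X ^ N)) (D * N) := by
  obtain ⟨π, e, hπ, hmon, he, rfl, ⟨u, hu⟩, hl⟩ := h
  refine ⟨π.comp (X ^ N), e, irreducible_comp_pow hN hπ hmon hl, he, ?_, ?_⟩
  · rw [natDegree_comp, natDegree_X_pow]
  · have h1 := congrArg (fun f => f.comp (X ^ N : κ[X])) hu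
    simp only [mul_comp, pow_comp] at h1
    rw [← h1]
    have h2 : IsUnit ((u : κ[X]).comp (X ^ N)) := by
      have h3 : ((u : κ[X]).comp (X ^ N)) = compRingHom (X ^ N : κ[X]) (u : κ[X]) := rfl
      rw [h3]
      exact u.isUnit.map _
    exact (associated_mul_unit_right _ _ h2)

theorem hasDegrees_comp {N p : ℕ} (hN : Odd N) : ∀ {l : List κ[X]} {t : List ℕ},
    HasKummerDegrees N p l t → HasDegrees p (compList (X ^ N) l) (t.map fun D => D * N)
  | [], [], _ => trivial
  | a :: l, D :: t, h => by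
    refine ⟨?_, hasDegrees_comp hN h.2⟩
    have h1 := isPrimePower_comp hN h.1
    rw [← branch_comp] at h1
    exact h1
  | [], _ :: _, h => h.elim
  | _ :: _, [], h => h.elim

end Pool.Agent.Run7.h735.IK
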