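import Pool.Agent.Run7.h735.IK.Congr

/-!
# The polynomial for the list of degrees
-/

set_option autoImplicit false

namespace Pool.Agent.Run7.h735.IK

open Finset Polynomial Pool.Agent.Y134.Cyc Pool.Agent.W528.HS Pool.Agent.W111.HS.EC

section
variable {E : Type} [Field E] [IsAlgClosed E]

lemma prod_nthRoots {D : ℕ} (hD : 0 < D) :
    ((nthRoots D (1 : E)).map fun x => 1 - C x * X).prod = (1 - X ^ D : E[X]) := by
  have hmon : (X ^ D - C (1 : E)).Monic := monic_X_pow_sub_C _ hD.ne'
  have h1 := (IsAlgClosed.splits (X ^ D - C (1 : E))).eq_prod_roots_of_monic hmon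
  have hcard : (nthRoots D (1 : E)).card = D := by
    have h2 := splits_iff_card_roots.1 (IsAlgClosed.splits (X ^ D - C (1 : E)))
    rw [natDegree_X_pow_sub_C] at h2
    exact h2
  have h3 := reflect_prod (nthRoots D (1 : E))
  rw [hcard] at h3
  have h4 : ((nthRoots D (1 : E)).map fun x => X - C x).prod = X ^ D - C (1 : E) := h1.symm
  rw [h4] at h3
  have h5 := congrArg (reflect D) h3
  have h6 : ∀ f : E[X], reflect D (reflect D f) = f := by
    intro f
    ext i
    rw [coeff_reflect, coeff_reflect, revAt_invol]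
  rw [h6] at h5
  rw [h5, reflect_sub, C_1]
  have e1 : reflect D (X ^ D : E[X]) = 1 := by
    have := reflect_monomial (R := E) D D
    rw [revAt_le (le_refl D), Nat.sub_self, pow_zero] at this
    exact this
  have e2 : reflect D (1 : E[X]) = X ^ D := by
    have := reflect_monomial (R := E) D 0
    rw [revAt_le (Nat.zero_le D), Nat.sub_zero, pow_zero] at this
    exact this
  rw [e1, e2]

lemma sum_nthRoots {D : ℕ} (hD : 0 < D) {m : ℕ} (hm : 1 ≤ m) :
    ((nthRoots D (1 : E)).map fun x => x ^ m).sum = ((if D ∣ m then D else 0 : ℕ) : E) := by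
  have h1 : gs (nthRoots D (1 : E)) = 1 - PowerSeries.C (1 : E) * PowerSeries.X ^ D := by
    rw [gs_coe, prod_nthRoots hD]
    simp
  have h2 := isLog_gs (nthRoots D (1 : E))
  have h3 := isLog_lg D hD (1 : E)
  rw [h1] at h2
  unfold IsLog at h2 h3
  have h4 : ((nthRoots D (1 : E)).map fun x => lg 1 x).sum = lg D (1 : E) := by
    have h5 := h2.symm.trans h3
    have hne : (1 - PowerSeries.C (1 : E) * PowerSeries.X ^ D : PowerSeries E) ≠ 0 := by
      intro h0
      have := congrArg PowerSeries.constantCoeff h0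
      rw [coeff_zero_factor D hD, map_zero] at this
      exact one_ne_zero this
    exact mul_left_cancel₀ hne h5
  rw [← coeff_gs _ m hm, h4]
  simp only [lg, PowerSeries.coeff_mk]
  by_cases hd : D ∣ m
  · rw [if_pos ⟨by omega, hd⟩, if_pos hd, one_pow, mul_one]
  · rw [if_neg (fun h => hd h.2), if_neg hd, Nat.cast_zero]

end

/-- The product of the `(1 - X ^ D_j) ^ ((p - 1) p ^ (j - 1))`. -/
noncomputable def upoly (R : Type) [CommRing R] (p : ℕ) : List ℕ → R[X]
  | [] => 1
  | D :: t => (1 - X ^ D) ^ (p - 1) * upoly R p t ^ p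

/-- The product of the `(1 + X + … + X ^ (D_j - 1)) ^ ((p - 1) p ^ (j - 1))`. -/
noncomputable def hpoly (R : Type) [CommRing R] (p : ℕ) : List ℕ → R[X]
  | [] => 1
  | D :: t => (∑ i ∈ range D, X ^ i) ^ (p - 1) * hpoly R p t ^ p

lemma upoly_eq (R : Type) [CommRing R] {p : ℕ} (hp : 0 < p) : ∀ t : List ℕ,
    upoly R p t = hpoly R p t * (1 - X) ^ (p ^ t.length - 1)
  | [] => by simp [upoly, hpoly]
  | D :: t => by
    have h1 : (1 - X ^ D : R[X]) = (∑ i ∈ range D, X ^ i) * (1 - X) := by
      have := geom_sum_mul (X : R[X]) D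
      linear_combination this
    have h2 : p ^ (D :: t).length - 1 = (p - 1) + (p ^ t.length - 1) * p := by
      have h3 : 0 < p ^ t.length := pow_pos hp _
      obtain ⟨a, ha⟩ : ∃ a, p ^ t.length = a + 1 := ⟨p ^ t.length - 1, by omega⟩
      obtain ⟨b, hb⟩ : ∃ b, p = b + 1 := ⟨p - 1, by omega⟩
      rw [List.length_cons, pow_succ, ha, Nat.add_sub_cancel]
      have h4 : (a + 1) * p = a * p + p := by ring
      rw [h4]
      omega
    rw [upoly, hpoly, upoly_eq R hp t, h1, h2, mul_pow, mul_pow, pow_add, pow_mul]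
    ring

lemma map_upoly {R S : Type} [CommRing R] [CommRing S] (f : R →+* S) (p : ℕ) : ∀ t : List ℕ,
    (upoly R p t).map f = upoly S p t
  | [] => by simp [upoly]
  | D :: t => by simp [upoly, map_upoly f p t]

lemma map_hpoly {R S : Type} [CommRing R] [CommRing S] (f : R →+* S) (p : ℕ) : ∀ t : List ℕ,
    (hpoly R p t).map f = hpoly S p t
  | [] => by simp [hpoly]
  | D :: t => by simp [hpoly, map_hpoly f p t, Polynomial.map_sum]

/-- The inverse roots of `upoly`. -/
noncomputable def uroots (E : Type) [Field E] (p : ℕ) : List ℕ → Multiset E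
  | [] => 0
  | D :: t => (p - 1) • nthRoots D (1 : E) + p • uroots E p t

lemma prod_nsmul {R : Type} {ι : Type} [CommRing R] (n : ℕ) (A : Multiset ι) (f : ι → R) :
    ((n • A).map f).prod = (A.map f).prod ^ n := by
  rw [Multiset.map_nsmul, Multiset.prod_nsmul]

lemma prod_uroots (E : Type) [Field E] [IsAlgClosed E] (p : ℕ) : ∀ t : List ℕ, (∀ D ∈ t, 0 < D) →
    ((uroots E p t).map fun x => 1 - C x * X).prod = upoly E p t
  | [], _ => by simp [uroots, upoly]
  | D :: t, h => by
    rw [uroots, upoly, Multiset.map_add, Multiset.prod_add, prod_nsmul, prod_nsmul,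
      prod_nthRoots (h D List.mem_cons_self), prod_uroots E p t fun D hD =>
        h D (List.mem_cons_of_mem _ hD)]

lemma sum_uroots (E : Type) [Field E] [IsAlgClosed E] (p : ℕ) {m : ℕ} (hm : 1 ≤ m) :
    ∀ t : List ℕ, (∀ D ∈ t, 0 < D) → ((uroots E p t).map fun x => x ^ m).sum =
      ((weighted p (p - 1) (fun D => if D ∣ m then D else 0) t : ℕ) : E)
  | [], _ => by simp [uroots, weighted]
  | D :: t, h => by
    rw [uroots, weighted, Multiset.map_add, Multiset.sum_add, Multiset.map_nsmul,
      Multiset.sum_nsmul, Multiset.map_nsmul, Multiset.sum_nsmul,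
      sum_nthRoots (h D List.mem_cons_self) hm, sum_uroots E p hm t fun D hD =>
        h D (List.mem_cons_of_mem _ hD)]
    push_cast [nsmul_eq_mul]
    ring

/-- The weighted sum as a sum over divisors. -/
lemma weighted_dsum (p w : ℕ) {m : ℕ} (hm : 1 ≤ m) : ∀ t : List ℕ,
    ((weighted p w (fun D => if D ∣ m then D else 0) t : ℕ) : ℤ) =
      dsum (fun d => ((weighted p w (fun D => if D = d then 1 else 0) t : ℕ) : ℤ)) m
  | [] => by simp [weighted, dsum]
  | D :: t => by
    have h1 := weighted_dsum p w hm t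
    have h2 : dsum (fun d => ((weighted p w (fun D => if D = d then 1 else 0) (D :: t) : ℕ) : ℤ)) m
        = (w : ℤ) * dsum (fun d => ((if D = d then 1 else 0 : ℕ) : ℤ)) m +
          p * dsum (fun d => ((weighted p w (fun D => if D = d then 1 else 0) t : ℕ) : ℤ)) m := by
      unfold dsum
      rw [mul_sum, mul_sum, ← sum_add_distrib]
      refine sum_congr rfl fun d _ => ?_
      simp only [weighted]
      push_cast
      ring
    have h3 : dsum (fun d => ((if D = d then 1 else 0 : ℕ) : ℤ)) m =
        ((if D ∣ m then D else 0 : ℕ) : ℤ) := by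
      unfold dsum
      by_cases hd : D ∣ m
      · rw [if_pos hd, sum_eq_single D]
        · simp
        · intro b _ hb
          change (b : ℤ) * ((if D = b then 1 else 0 : ℕ) : ℤ) = 0
          rw [if_neg (Ne.symm hb)]
          simp
        · intro h
          exact absurd (Nat.mem_divisors.2 ⟨hd, by omega⟩) h
      · rw [if_neg hd]
        apply sum_eq_zero
        intro b hb
        change (b : ℤ) * ((if D = b then 1 else 0 : ℕ) : ℤ) = 0
        rw [if_neg]
        · simp
        · rintro rfl
          exact hd (Nat.dvd_of_mem_divisors hb)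
    rw [h2, h3, ← h1, weighted]
    push_cast
    ring

lemma HasDegrees.length {κ : Type} [Field κ] {p : ℕ} : ∀ {l : List κ[X]} {t : List ℕ},
    HasDegrees p l t → t.length = l.length
  | [], [], _ => rfl
  | _ :: _, _ :: _, h => by rw [List.length_cons, List.length_cons, h.2.length]
  | [], _ :: _, h => h.elim
  | _ :: _, [], h => h.elim

lemma HasDegrees.pos {κ : Type} [Field κ] {p : ℕ} : ∀ {l : List κ[X]} {t : List ℕ},
    HasDegrees p l t → ∀ D ∈ t, 0 < D
  | [], [], _, _, hD => (List.not_mem_nil hD).elim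
  | _ :: _, D' :: t, h, D, hD => by
    rcases List.mem_cons.1 hD with rfl | hD
    · obtain ⟨π, e, hπ, -, hdeg, -⟩ := h.1
      rw [← hdeg]
      exact hπ.natDegree_pos
    · exact h.2.pos D hD
  | [], _ :: _, h, _, _ => h.elim
  | _ :: _, [], h, _, _ => h.elim

end Pool.Agent.Run7.h735.IK
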