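import Pool.Agent.Run7.h735.IK.Pull

/-!
# Iterated Kummer surfaces: definitions
-/

set_option autoImplicit false

universe u

namespace Pool.Agent.Run7.h735.IK

open Polynomial Pool.Agent.Y134.Cyc Pool.Agent.Y134.TF Pool.Agent.TH125.Gal
  Pool.Agent.Run7.h735.CP

/-- The zeta function `P₁(T) / (P₂(T) (1 - q T))` of the affine curve `F(x, y) = 0` over the finite field `κ` with `q`
elements: the polynomials `P₁` and `P₂` with the inverse roots `B₁` and `B₂` in `K`, and the number of points over all
finite extensions `L` of `κ`. -/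
structure ZetaData (K : Type) [Field K] (κ : Type) [Field κ] [Fintype κ]
    (F : MvPolynomial (Fin 2) κ) where
  /-- the numerator of the zeta function -/
  P₁ : ℤ[X]
  /-- the denominator, without the factor `1 - q T` -/
  P₂ : ℤ[X]
  /-- the inverse roots of the numerator -/
  B₁ : Multiset K
  /-- the inverse roots of the denominator -/
  B₂ : Multiset K
  roots₁ : HasInverseRoots P₁ B₁
  roots₂ : HasInverseRoots P₂ B₂
  curve : ∀ (L : Type) [Field L] [Fintype L] [Algebra κ L],
    (curvePoints F L : K) = Fintype.card L - powerSum B₁ (Module.finrank κ L)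
      + powerSum B₂ (Module.finrank κ L)

/-- The cyclic covering `w ^ (p ^ s) = F(x, y)` of the plane over the finite field `κ`, which contains the roots of
unity of order `p ^ s`: the group `Γ` acts on the cohomology algebra `A` of (a smooth projective model of) the surface
by `act`, and `P` is the part of `H^2` which is the sum of the parts for the nontrivial characters of the covering
group; a multiplicative character `θ` of order `p ^ s` of `κ`; the Frobenius element `φ` of `Γ`; the zeta function of
the affine branch curve `F(x, y) = 0`; and the decomposition of `P` into the parts for the characters. -/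
structure CyclicSurface {K A : Type} [Field K] [Ring A] [Algebra K A] {Γ : Type} [Group Γ]
    (χ : Γ →* Kˣ) (act : Γ →* (A ≃ₐ[K] A)) (P : Submodule K A) (p s : ℕ) (κ : Type) [Field κ]
    [Fintype κ] (F : MvPolynomial (Fin 2) κ) where
  dvd : p ^ s ∣ Fintype.card κ - 1
  /-- the multiplicative character -/
  θ : MulChar κ K
  order : orderOf θ = p ^ s
  /-- the Frobenius element -/
  φ : Γ
  frob : (χ φ : K) = Fintype.card κ
  /-- the zeta function of the branch curve -/
  zeta : ZetaData K κ F
  stable : ∀ v ∈ P, (act φ).toLinearMap v ∈ P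
  /-- the parts for the characters -/
  parts : Parts ((act φ).toLinearMap.restrict stable) (p ^ s) F θ

/-- The number `(p ^ s - 1) (p - 1) ∑ p ^ (j - 1) (gcd(m, D_j) - 1)` for the list `t` of the numbers `D_j`. -/
def kummerBound (p s : ℕ) (t : List ℕ) (m : ℕ) : ℕ :=
  (p ^ s - 1) * weighted p (p - 1) (fun D => Nat.gcd m D - 1) t

open Pool.Agent.H914 Pool.Agent.H914.VarClass Pool.Agent.H914.VarClass.Obj
  Pool.Agent.H914.WeilCohomology Pool.Agent.H281R3.HT

variable {k : Type u} [Field k] {𝒱 : VarClass k} {ops : CycleOps 𝒱}
  {W : WeilCohomology.{u, 0} ops} {Γ : Type} [Group Γ]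

/-- If `S` is the surface `w ^ (p ^ s) = F_l(x, y)` over `κ`, then `CF.BoundAt` holds over all finite extensions of `κ`,
with the number `kummerBound p s t m` for the extension of degree `m`. -/
def BoundsHold (χ : Γ →* W.Kˣ) (S : PVar W Γ) (p s : ℕ) (κ : Type) [Field κ] [Fintype κ]
    (l : List κ[X]) (t : List ℕ) : Prop :=
  ∀ v : CyclicSurface χ S.act S.P p s κ (iter p l), ∀ m : ℕ, 0 < m →
    CF.BoundAt χ S (v.φ ^ m) (kummerBound p s t m)

/-- If `S` is the surface `w ^ (p ^ s) = F(x, y)` over `κ`, then the Tate conjecture for divisors holds for `S` over all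
finite extensions of `κ` of a degree prime to `n`. -/
def TateOverPrimeTo (χ : Γ →* W.Kˣ) (S : PVar W Γ) (p s : ℕ) (κ : Type) [Field κ] [Fintype κ]
    (F : MvPolynomial (Fin 2) κ) (n : ℕ) : Prop :=
  ∀ v : CyclicSurface χ S.act S.P p s κ F, ∀ m : ℕ, 0 < m → Nat.Coprime m n →
    CF.TateForDivisors χ S (v.φ ^ m)

end Pool.Agent.Run7.h735.IK
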