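import Pool.Agent.Run7.h735.IK.Count

/-!
# The number of zeros of a power of an irreducible polynomial; the total count
-/

set_option autoImplicit false

namespace Pool.Agent.Run7.h735.IK

open Finset Polynomial Pool.Agent.Y134.Cyc

variable {κ : Type} [Field κ] [Fintype κ]

/-- The number of the zeros in a finite extension. -/
theorem ncard_zeros {G : κ[X]} {D : ℕ} (h : IsPrimePower G D) (L : Type) [Field L] [Fintype L]
    [Algebra κ L] : {x : L | aeval x G = 0}.ncard = if D ∣ Module.finrank κ L then D else 0 := by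
  classical
  obtain ⟨π, e, hπ, he, rfl, u, hu⟩ := h
  have h1 : ∀ x : L, aeval x G = 0 ↔ aeval x π = 0 := by
    intro x
    have h2 : aeval x G * aeval x (u : κ[X]) = (aeval x π) ^ e := by
      rw [← map_mul, hu, map_pow]
    have h3 : aeval x (u : κ[X]) ≠ 0 := by
      have : IsUnit (aeval x (u : κ[X])) := u.isUnit.map (aeval x)
      exact this.ne_zero
    constructor
    · intro h4
      rw [h4, zero_mul] at h2
      exact (pow_eq_zero_iff he.ne').1 h2.symm
    · intro h4
      rw [h4, zero_pow he.ne'] at h2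
      exact (mul_eq_zero.1 h2).resolve_right h3
  have h2 : {x : L | aeval x G = 0} = {x : L | aeval x π = 0} := by
    ext x
    exact h1 x
  rw [h2]
  have hdiv : π.natDegree ∣ Module.finrank κ L ↔ π ∣ X ^ Fintype.card L - X := by
    rw [hπ.natDegree_dvd_iff_dvd_X_pow_card_pow_sub_X, Nat.card_eq_fintype_card,
      ← Module.card_eq_pow_finrank]
  have hsplit : (X ^ Fintype.card L - X : L[X]).Splits := by
    have h3 := FiniteField.X_pow_card_sub_X_natDegree_eq L (Fintype.one_lt_card (α := L))
    rw [splits_iff_card_roots, h3]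
    have h4 : (X ^ Fintype.card L - X : L[X]).roots = Finset.univ.val :=
      FiniteField.roots_X_pow_card_sub_X L
    rw [h4]
    rfl
  have hne : (X ^ Fintype.card L - X : L[X]) ≠ 0 :=
    FiniteField.X_pow_card_sub_X_ne_zero L (Fintype.one_lt_card (α := L))
  have hset : {x : L | aeval x π = 0} = ((π.map (algebraMap κ L)).roots.toFinset : Set L) := by
    ext x
    simp only [Set.mem_ofPred_eq, Finset.mem_coe, Multiset.mem_toFinset]
    rw [mem_roots (by
      rw [Ne, Polynomial.map_eq_zero]
      exact hπ.ne_zero), IsRoot.def, eval_map_algebraMap]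
  by_cases hd : π.natDegree ∣ Module.finrank κ L
  · rw [if_pos hd]
    have h4 := hdiv.1 hd
    have h5 : π.map (algebraMap κ L) ∣ (X ^ Fintype.card L - X : L[X]) := by
      have := map_dvd (algebraMap κ L) h4
      have e1 := Polynomial.map_dvd (algebraMap κ L) h4
      simpa using e1
    have h6 : (π.map (algebraMap κ L)).Splits := Splits.of_dvd hsplit hne h5
    have h7 : (π.map (algebraMap κ L)).roots.Nodup := by
      have h8 := Polynomial.roots.le_of_dvd hne h5
      have h9 : (X ^ Fintype.card L - X : L[X]).roots.Nodup := by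
        rw [FiniteField.roots_X_pow_card_sub_X L]
        exact Finset.univ.nodup
      exact Multiset.nodup_of_le h8 h9
    rw [hset, Set.ncard_coe_finset, Multiset.toFinset_card_of_nodup h7,
      splits_iff_card_roots.1 h6, natDegree_map]
  · rw [if_neg hd]
    have h4 : {x : L | aeval x π = 0} = ∅ := by
      rw [Set.eq_empty_iff_forall_notMem]
      intro x hx
      have hx' : aeval x π = 0 := hx
      apply hd
      rw [hdiv]
      refine (hπ.dvd_iff_aeval_eq_zero hx').1 ?_
      rw [map_sub, map_pow, aeval_X, FiniteField.pow_card, sub_self]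
    rw [h4, Set.ncard_empty]

omit [Fintype κ] in
lemma ncard_nil (L : Type) [Field L] [Fintype L] [Algebra κ L] (p : ℕ) :
    (pts L p ([] : List κ[X])).ncard = Fintype.card L := by
  have h1 : (pts L p ([] : List κ[X])).ncard = (Set.univ : Set L).ncard := by
    refine Set.ncard_congr (fun v _ => v 0) (fun _ _ => Set.mem_univ _) ?_ ?_
    · intro v v' hv hv' h
      have h1 : MvPolynomial.aeval v (iter p ([] : List κ[X])) = 0 := hv
      have h2 : MvPolynomial.aeval v' (iter p ([] : List κ[X])) = 0 := hv'
      rw [aeval_iter_nil] at h1 h2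
      ext i
      fin_cases i
      · exact h
      · exact h1.trans h2.symm
    · intro x _
      refine ⟨![x, 0], ?_, rfl⟩
      change MvPolynomial.aeval ![x, 0] (iter p ([] : List κ[X])) = 0
      rw [aeval_iter_nil]
      rfl
  rw [h1, Set.ncard_univ, Nat.card_eq_fintype_card]

lemma pow_dvd_card_sub_one {p : ℕ} (hdvd : p ∣ Fintype.card κ - 1) (m : ℕ)
    (hm : 0 < m) :
    ((p : ℤ) ^ (m.factorization p + 1)) ∣ (Fintype.card κ : ℤ) ^ m - 1 := by
  obtain ⟨m', hm'⟩ := Nat.ordProj_dvd m p
  have h1 : (p : ℤ) ∣ (Fintype.card κ : ℤ) - 1 := by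
    have h2 : 1 ≤ Fintype.card κ := Fintype.card_pos
    have h3 : ((Fintype.card κ - 1 : ℕ) : ℤ) = (Fintype.card κ : ℤ) - 1 := by push_cast [h2]; ring
    rw [← h3]
    exact_mod_cast hdvd
  have h4 := dvd_sub_pow_of_dvd_sub h1 (m.factorization p)
  rw [one_pow] at h4
  conv_rhs => rw [hm', pow_mul]
  refine h4.trans ?_
  have h5 := sub_dvd_pow_sub_pow ((Fintype.card κ : ℤ) ^ p ^ m.factorization p) 1 m'
  rwa [one_pow] at h5

/-- **The total count.** -/
theorem total {p : ℕ} (hp : p.Prime) (hdvd : p ∣ Fintype.card κ - 1) (L : Type) [Field L]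
    [Fintype L] [Algebra κ L] : ∀ (l : List κ[X]) (t : List ℕ), HasDegrees p l t →
    ((p : ℤ) ^ ((Module.finrank κ L).factorization p + 1)) ∣
      ((pts L p l).ncard : ℤ) - ((p : ℤ) ^ l.length -
        (weighted p (p - 1) (fun D => if D ∣ Module.finrank κ L then D else 0) t : ℕ))
  | [], [], _ => by
    rw [ncard_nil, Module.card_eq_pow_finrank (K := κ) (V := L)]
    have h1 := pow_dvd_card_sub_one (κ := κ) hdvd (Module.finrank κ L) Module.finrank_pos
    simpa [weighted] using h1
  | a :: l, D :: t, h => by
    have h1 := congr_cons (L := L) hp hdvd a l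
    have h2 := total hp hdvd L l t h.2
    rw [ncard_zeros h.1 L] at h1
    have h3 := dvd_add h1 (h2.mul_left (p : ℤ))
    refine h3.trans (dvd_of_eq ?_)
    have h4 : 1 ≤ p := hp.one_lt.le
    simp only [weighted, List.length_cons]
    push_cast [h4]
    ring
  | [], _ :: _, h => h.elim
  | _ :: _, [], h => h.elim

end Pool.Agent.Run7.h735.IK
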