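import Pool.Agent.Run7.h735.IK.Zeros
import Pool.Agent.W715.HS.OC

/-!
# Polynomials with congruent power sums
-/

set_option autoImplicit false

namespace Pool.Agent.Run7.h735.IK

open Finset Polynomial Pool.Agent.Y134.Cyc Pool.Agent.W528.HS Pool.Agent.W111.HS.EC

/-- The part prime to `p`. -/
def co (p d : ℕ) : ℕ := d / p ^ d.factorization p

lemma factorization_mul_pow {p : ℕ} (hp : p.Prime) {d : ℕ} (hd : 0 < d) (hpd : ¬ p ∣ d) (j : ℕ) :
    (p ^ j * d).factorization p = j := by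
  rw [Nat.factorization_mul (pow_pos hp.pos j).ne' hd.ne', Finsupp.add_apply,
    hp.factorization_pow, Nat.factorization_eq_zero_of_not_dvd hpd]
  simp

lemma co_pow_mul {p : ℕ} (hp : p.Prime) {d : ℕ} (hd : 0 < d) (hpd : ¬ p ∣ d) (j : ℕ) :
    co p (p ^ j * d) = d := by
  unfold co
  rw [factorization_mul_pow hp hd hpd j, Nat.mul_div_cancel_left _ (pow_pos hp.pos j)]

lemma pow_mul_co (p d : ℕ) : p ^ d.factorization p * co p d = d :=
  Nat.ordProj_mul_ordCompl_eq_self d p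

lemma not_dvd_co {p : ℕ} (hp : p.Prime) {d : ℕ} (hd : d ≠ 0) : ¬ p ∣ co p d :=
  Nat.not_dvd_ordCompl hp hd

/-- The sum over the fibre of `co`. -/
lemma sum_fiber {p : ℕ} (hp : p.Prime) {R : Type} [AddCommMonoid R] (f : ℕ → R) (s : Finset ℕ)
    {d : ℕ} (hd : 0 < d) (hpd : ¬ p ∣ d) (k : ℕ) (hs : ∀ j, p ^ j * d ∈ s ↔ j ≤ k) :
    ∑ x ∈ s with co p x = d, f x = ∑ j ∈ range (k + 1), f (p ^ j * d) := by
  classical
  symm
  refine sum_bij (fun j _ => p ^ j * d) ?_ ?_ ?_ ?_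
  · intro j hj
    rw [mem_filter, hs, co_pow_mul hp hd hpd]
    exact ⟨Nat.lt_succ_iff.1 (mem_range.1 hj), rfl⟩
  · intro i _ j _ h
    have h1 := congrArg (fun x => x.factorization p) h
    simp only [factorization_mul_pow hp hd hpd] at h1
    exact h1
  · intro x hx
    rw [mem_filter] at hx
    have h1 := pow_mul_co p x
    rw [hx.2] at h1
    refine ⟨x.factorization p, ?_, h1⟩
    rw [mem_range, Nat.lt_succ_iff, ← hs, h1]
    exact hx.1
  · intro j _
    rfl

/-- The sum `∑_{d ∣ m} d e_d`. -/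
def dsum (e : ℕ → ℤ) (m : ℕ) : ℤ := ∑ d ∈ m.divisors, ((d : ℕ) : ℤ) * e d

/-- The divisibility of the partial sums. -/
lemma dvd_partial {p : ℕ} (hp : p.Prime) (e : ℕ → ℤ)
    (hdvd : ∀ m, 1 ≤ m → (p : ℤ) ^ (m.factorization p + 1) ∣ dsum e m)
    (k : ℕ) : ∀ m' : ℕ, 0 < m' → ¬ p ∣ m' →
    (p : ℤ) ^ (k + 1) ∣ ∑ j ∈ range (k + 1), ((p ^ j * m' : ℕ) : ℤ) * e (p ^ j * m') := by
  intro m'
  induction m' using Nat.strong_induction_on with
  | _ m' ih =>
    intro hm' hpm'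
    have hm0 : 1 ≤ p ^ k * m' := Nat.mul_pos (pow_pos hp.pos k) hm'
    have h1 := hdvd (p ^ k * m') hm0
    rw [factorization_mul_pow hp hm' hpm', dsum] at h1
    have hmaps : ∀ x ∈ (p ^ k * m').divisors, co p x ∈ m'.divisors := by
      intro x hx
      rw [Nat.mem_divisors] at hx ⊢
      refine ⟨?_, hm'.ne'⟩
      have hx0 : x ≠ 0 := by
        rintro rfl
        exact hx.2 (Nat.eq_zero_of_zero_dvd hx.1)
      have h2 : co p x ∣ p ^ k * m' := (Nat.ordCompl_dvd x p).trans hx.1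
      refine Nat.Coprime.dvd_of_dvd_mul_left ?_ h2
      exact (Nat.Coprime.pow_left k ((Nat.Prime.coprime_iff_not_dvd hp).2
        (not_dvd_co hp hx0))).symm
    rw [← sum_fiberwise_of_maps_to hmaps] at h1
    have h3 : ∀ d ∈ m'.divisors, ∑ x ∈ (p ^ k * m').divisors with co p x = d, (x : ℤ) * e x =
        ∑ j ∈ range (k + 1), ((p ^ j * d : ℕ) : ℤ) * e (p ^ j * d) := by
      intro d hd
      rw [Nat.mem_divisors] at hd
      have hd0 : 0 < d := Nat.pos_of_dvd_of_pos hd.1 hm'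
      have hpd : ¬ p ∣ d := fun h => hpm' (h.trans hd.1)
      refine sum_fiber hp (fun x => (x : ℤ) * e x) _ hd0 hpd k fun j => ?_
      rw [Nat.mem_divisors]
      constructor
      · rintro ⟨h4, -⟩
        have h5 : p ^ j ∣ p ^ k := by
          refine Nat.Coprime.dvd_of_dvd_mul_right ?_ ((Dvd.intro _ rfl).trans h4)
          exact Nat.Coprime.pow_left j ((Nat.Prime.coprime_iff_not_dvd hp).2 hpm')
        exact (Nat.pow_dvd_pow_iff_le_right hp.one_lt).1 h5
      · intro h4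
        exact ⟨Nat.mul_dvd_mul (pow_dvd_pow p h4) hd.1, by omega⟩
    rw [sum_congr rfl h3, ← Nat.cons_self_properDivisors hm'.ne', sum_cons] at h1
    refine (dvd_add_left (a := (p : ℤ) ^ (k + 1)) (b := ∑ j ∈ range (k + 1),
      ((p ^ j * m' : ℕ) : ℤ) * e (p ^ j * m')) ?_).1 h1
    apply dvd_sum
    intro d hd
    rw [Nat.mem_properDivisors] at hd
    exact ih d hd.2 (Nat.pos_of_dvd_of_pos hd.1 hm') fun h => hpm' (h.trans hd.1)

/-- The products agree up to the order `n` modulo `p`. -/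
theorem prod_congr_mod {p : ℕ} (hp : p.Prime) (a b : ℕ → ℕ)
    (hdvd : ∀ m, 1 ≤ m → (p : ℤ) ^ (m.factorization p + 1) ∣
      dsum (fun d => (a d : ℤ) - b d) m) (n : ℕ) :
    (PowerSeries.X : PowerSeries (ZMod p)) ^ (n + 1) ∣
      ∏ d ∈ Icc 1 n, (1 - PowerSeries.X ^ d) ^ a d - ∏ d ∈ Icc 1 n, (1 - PowerSeries.X ^ d) ^ b d := by
  classical
  have : Fact p.Prime := ⟨hp⟩
  have hchar : CharP (PowerSeries (ZMod p)) p :=
    charP_of_injective_ringHom (PowerSeries.C_injective (R := ZMod p)) p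
  set I : Ideal (PowerSeries (ZMod p)) := Ideal.span {PowerSeries.X ^ (n + 1)} with hI
  rw [← Ideal.mem_span_singleton, ← hI, ← Ideal.Quotient.eq]
  let t : Finset ℕ := (Icc 1 n).filter fun d => ¬ p ∣ d
  have hmaps : ∀ x ∈ Icc 1 n, co p x ∈ t := by
    intro x hx
    rw [mem_Icc] at hx
    rw [mem_filter, mem_Icc]
    refine ⟨⟨?_, ?_⟩, not_dvd_co hp (by omega)⟩
    · exact Nat.ordCompl_pos p (by omega)
    · exact (Nat.ordCompl_le x p).trans hx.2
  have hgroup : ∀ c : ℕ → ℕ, ∏ d ∈ Icc 1 n, (1 - PowerSeries.X ^ d : PowerSeries (ZMod p)) ^ c d =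
      ∏ d' ∈ t, (1 - PowerSeries.X ^ d' : PowerSeries (ZMod p)) ^
        (∑ d ∈ Icc 1 n with co p d = d', p ^ d.factorization p * c d) := by
    intro c
    rw [← prod_fiberwise_of_maps_to hmaps]
    refine prod_congr rfl fun d' _ => ?_
    rw [← prod_pow_eq_pow_sum]
    refine prod_congr rfl fun d hd => ?_
    rw [mem_filter] at hd
    rw [pow_mul, sub_pow_char_pow, one_pow, ← pow_mul, mul_comm d', ← hd.2, pow_mul_co]
  rw [hgroup a, hgroup b, map_prod, map_prod]
  refine prod_congr rfl fun d' hd' => ?_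
  rw [mem_filter, mem_Icc] at hd'
  obtain ⟨⟨hd1, hd2⟩, hpd⟩ := hd'
  set k := Nat.log p (n / d') with hk
  have hnd : 0 < n / d' := Nat.div_pos hd2 hd1
  have hk1 : p ^ k ≤ n / d' := Nat.pow_log_le_self p hnd.ne'
  have hk2 : n / d' < p ^ (k + 1) := Nat.lt_pow_succ_log_self hp.one_lt _
  have hmem : ∀ j, p ^ j * d' ∈ Icc 1 n ↔ j ≤ k := by
    intro j
    rw [mem_Icc, ← Nat.le_div_iff_mul_le hd1]
    constructor
    · rintro ⟨-, h⟩
      by_contra hlt
      rw [not_le] at hlt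
      have : p ^ (k + 1) ≤ p ^ j := Nat.pow_le_pow_right hp.pos hlt
      omega
    · intro h
      exact ⟨Nat.mul_pos (pow_pos hp.pos j) hd1, (Nat.pow_le_pow_right hp.pos h).trans hk1⟩
  rw [map_pow, map_pow]
  apply pow_eq_pow_of_modEq (n := p ^ (k + 1))
  · -- the congruence of the exponents
    have h1 := dvd_partial hp (fun d => (a d : ℤ) - b d) hdvd k d' hd1 hpd
    rw [← sum_fiber hp (fun x => (x : ℤ) * ((a x : ℤ) - b x)) (Icc 1 n) hd1 hpd k hmem] at h1
    have h2 : ∑ x ∈ Icc 1 n with co p x = d', (x : ℤ) * ((a x : ℤ) - b x) =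
        (d' : ℤ) * (((∑ d ∈ Icc 1 n with co p d = d', p ^ d.factorization p * a d : ℕ) : ℤ) -
          ((∑ d ∈ Icc 1 n with co p d = d', p ^ d.factorization p * b d : ℕ) : ℤ)) := by
      push_cast
      rw [← sum_sub_distrib, mul_sum]
      refine sum_congr rfl fun x hx => ?_
      rw [mem_filter] at hx
      have h3 : (x : ℤ) = (p : ℤ) ^ x.factorization p * d' := by
        have := pow_mul_co p x
        rw [hx.2] at this
        exact_mod_cast this.symm
      conv_lhs => rw [h3]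
      ring
    rw [h2] at h1
    have h3 : (p : ℤ) ^ (k + 1) ∣
        (((∑ d ∈ Icc 1 n with co p d = d', p ^ d.factorization p * a d : ℕ) : ℤ) -
          ((∑ d ∈ Icc 1 n with co p d = d', p ^ d.factorization p * b d : ℕ) : ℤ)) := by
      refine IsCoprime.dvd_of_dvd_mul_left ?_ h1
      apply IsCoprime.pow_left
      rw [Nat.isCoprime_iff_coprime]
      exact (Nat.Prime.coprime_iff_not_dvd hp).2 hpd
    have h4 := (Int.modEq_iff_dvd.2 h3)
    have h5 : ((∑ d ∈ Icc 1 n with co p d = d', p ^ d.factorization p * b d : ℕ) : ℤ) ≡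
        ((∑ d ∈ Icc 1 n with co p d = d', p ^ d.factorization p * a d : ℕ) : ℤ)
        [ZMOD ((p ^ (k + 1) : ℕ) : ℤ)] := by
      push_cast at h4 ⊢
      exact h4
    exact ((Int.natCast_modEq_iff).1 h5).symm
  · -- the power is one
    rw [← map_pow, sub_pow_char_pow, one_pow, ← pow_mul, ← map_one (Ideal.Quotient.mk I),
      Ideal.Quotient.eq, hI, Ideal.mem_span_singleton]
    have h6 : n + 1 ≤ d' * p ^ (k + 1) := by
      rw [mul_comm]
      exact (Nat.div_lt_iff_lt_mul hd1).1 hk2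
    obtain ⟨c, hc⟩ := pow_dvd_pow (PowerSeries.X : PowerSeries (ZMod p)) h6
    refine ⟨-c, ?_⟩
    rw [hc]
    ring

end Pool.Agent.Run7.h735.IK
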